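import Mathlib

/-!
# Projective modules over `S⟦z_1, …, z_n⟧[1/r]`: definitions
-/

set_option autoImplicit false

namespace Pool.Agent.QU53

universe u

/-- Every finitely generated projective module over `A` is free. -/
def PF (A : Type u) [CommRing A] : Prop :=
  ∀ (P : Type u) [AddCommGroup P] [Module A P],
    Module.Finite A P → Module.Projective A P → Module.Free A P

/-- There are `k` linearly independent elements of `P` whose span contains `h • P`. -/
def HB (A : Type u) [CommRing A] (P : Type u) [AddCommGroup P] [Module A P] (k : ℕ) (h : A) :
    Prop :=
  ∃ b : Fin k → P, LinearIndependent A b ∧ ∀ q : P, h • q ∈ Submodule.span A (Set.range b)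

end Pool.Agent.QU53
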