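import Mathlib
import Pool.Agent.Lib.QU62.Base
import Pool.Agent.Lib.QU53.Defs

/-!
# Gabber's theorem in dimension three, from the theorem on lattices
-/

set_option autoImplicit false

namespace Pool.Agent.QU53

open IsLocalRing

universe u

/-- The lattice of a projective module over `K[1/u]`. -/
theorem lattice (K : Type u) [CommRing K] [IsDomain K] [IsNoetherianRing K] (u : K)
    (hu : Prime u) (P : Type u) [AddCommGroup P] [Module (Localization.Away u) P]
    [Module.Finite (Localization.Away u) P] [Module.Projective (Localization.Away u) P] :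
    ∃ (n : ℕ) (M : Submodule K (Fin n → K)) (k : ℕ) (p : Fin n → M),
      (∀ (c : K) (v : Fin n → K), c ≠ 0 → c • v ∈ M → v ∈ M) ∧
      (∀ m : M, u ^ k • m = ∑ l, (m : Fin n → K) l • p l) ∧
      ((∃ b c : ℕ, HB K M b (u ^ c)) → Module.Free (Localization.Away u) P) := by
  classical
  have hle : Submonoid.powers u ≤ nonZeroDivisors K :=
    powers_le_nonZeroDivisors_of_noZeroDivisors hu.ne_zero
  have : IsDomain (Localization.Away u) := IsLocalization.isDomain_localization hle
  have hinj : Function.Injective (algebraMap K (Localization.Away u)) :=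
    IsLocalization.injective _ hle
  obtain ⟨n, f, g, hf, hg, hfg⟩ := Module.Finite.exists_comp_eq_id_of_projective
    (Localization.Away u) P
  let ι : (Fin n → K) →ₗ[K] (Fin n → Localization.Away u) :=
    LinearMap.pi fun i => (Algebra.linearMap K (Localization.Away u)) ∘ₗ LinearMap.proj i
  have hι : ∀ v i, ι v i = algebraMap K (Localization.Away u) (v i) := fun v i => rfl
  have hιinj : Function.Injective ι := fun v w h => funext fun i => hinj (congrFun h i)
  let M : Submodule K (Fin n → K) :=
    ((LinearMap.range g).restrictScalars K).comap ι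
  have hmem : ∀ v, v ∈ M ↔ ∃ p : P, g p = ι v := fun v => Iff.rfl
  have hfg' : ∀ p, f (g p) = p := fun p => LinearMap.congr_fun hfg p
  have hM : ∀ (c : K) (v : Fin n → K), c ≠ 0 → c • v ∈ M → v ∈ M := by
    intro c v hc hv
    have hxA : algebraMap K (Localization.Away u) c ≠ 0 := fun h =>
      hc (hinj (by rw [h, map_zero]))
    obtain ⟨p, hp⟩ := (hmem _).1 hv
    refine (hmem _).2 ⟨f (ι v), ?_⟩
    have h1 : g (f (ι (c • v))) = ι (c • v) := by
      rw [← hp, hfg']
    rw [map_smul, ← algebraMap_smul (Localization.Away u) c, map_smul, map_smul] at h1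
    exact smul_right_injective _ hxA h1
  have hgf : ∀ v ∈ M, g (f (ι v)) = ι v := by
    intro v hv
    obtain ⟨p, hp⟩ := (hmem _).1 hv
    rw [← hp, hfg']
  -- denominators
  have hden : ∀ w : Fin n → Localization.Away u, ∃ (k : ℕ), ∀ k', k ≤ k' →
      ∃ v : Fin n → K, ι v = algebraMap K (Localization.Away u) (u ^ k') • w := by
    intro w
    obtain ⟨s, hs⟩ := IsLocalization.exist_integer_multiples_of_finite (Submonoid.powers u)
      (fun i => w i)
    choose v hv using hs
    obtain ⟨k, hk⟩ := s.2
    refine ⟨k, fun k' hk' => ⟨u ^ (k' - k) • v, ?_⟩⟩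
    rw [map_smul]
    funext i
    rw [Pi.smul_apply, hι, hv i, Pi.smul_apply, ← algebraMap_smul (Localization.Away u),
      ← hk]
    show algebraMap K (Localization.Away u) (u ^ (k' - k)) • u ^ k • w i = _
    rw [← algebraMap_smul (Localization.Away u) (u ^ k), smul_smul, ← map_mul, ← pow_add,
      Nat.sub_add_cancel hk', smul_eq_mul]
  -- the elements `p`
  have h1 : ∃ k : ℕ, ∀ l : Fin n, ∃ v : Fin n → K, ι v =
      algebraMap K (Localization.Away u) (u ^ k) • g (f (Pi.single l 1)) := by
    choose k hk using fun l : Fin n => hden (g (f (Pi.single l 1)))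
    exact ⟨Finset.univ.sup k, fun l => hk l _ (Finset.le_sup (Finset.mem_univ l))⟩
  obtain ⟨k, hk⟩ := h1
  choose v hv using hk
  have hvM : ∀ l, v l ∈ M := fun l =>
    (hmem _).2 ⟨algebraMap K (Localization.Away u) (u ^ k) • f (Pi.single l 1), by
      rw [map_smul, hv]⟩
  refine ⟨n, M, k, fun l => ⟨v l, hvM l⟩, hM, ?_, ?_⟩
  · intro m
    apply Subtype.ext
    apply hιinj
    rw [Submodule.coe_smul, Submodule.coe_sum, map_smul, map_sum]
    have h2 : ι (m : Fin n → K) = ∑ l, algebraMap K (Localization.Away u) ((m : Fin n → K) l) •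
        (Pi.single l 1 : Fin n → Localization.Away u) := by
      funext i
      rw [Finset.sum_apply, Finset.sum_eq_single i]
      · rw [hι, Pi.smul_apply, Pi.single_eq_same, smul_eq_mul, mul_one]
      · intro j _ hj
        rw [Pi.smul_apply, Pi.single_eq_of_ne' hj, smul_zero]
      · intro h
        exact absurd (Finset.mem_univ i) h
    have h3 := hgf m m.2
    rw [← h3, h2, map_sum, map_sum, Finset.smul_sum]
    refine Finset.sum_congr rfl fun l _ => ?_
    rw [map_smul, map_smul, Submodule.coe_smul, map_smul, hv,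
      ← algebraMap_smul (Localization.Away u) (u ^ k),
      ← algebraMap_smul (Localization.Away u) ((m : Fin n → K) l), smul_comm]
  · rintro ⟨β, c, b, hb, hspan⟩
    choose q hq using fun i => (hmem _).1 (b i).2
    have hli : LinearIndependent (Localization.Away u) q := by
      refine LinearIndependent.of_comp g ?_
      have h1 : LinearIndependent K (fun i => ι (b i)) := by
        have h2 : LinearIndependent K (fun i => ((b i : M) : Fin n → K)) :=
          hb.map' M.subtype (Submodule.ker_subtype M)
        exact h2.map' ι (LinearMap.ker_eq_bot.2 hιinj)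
      have h3 := LinearIndependent.localization (Localization.Away u) (Submonoid.powers u) h1
      have e : g ∘ q = fun i => ι (b i) := funext fun i => hq i
      rw [e]
      exact h3
    refine Module.Free.of_basis (Module.Basis.mk hli ?_)
    intro p _
    obtain ⟨k', hk'⟩ := hden (g p)
    obtain ⟨w, hw⟩ := hk' k' le_rfl
    have h1 : g (algebraMap K (Localization.Away u) (u ^ k') • p) = ι w := by
      rw [map_smul, hw]
    have h2 : w ∈ M := ⟨_, h1⟩
    obtain ⟨a, ha⟩ := (Submodule.mem_span_range_iff_exists_fun _).1 (hspan ⟨w, h2⟩)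
    have h4 : algebraMap K (Localization.Away u) (u ^ (c + k')) • p =
        ∑ i, algebraMap K (Localization.Away u) (a i) • q i := by
      apply hg
      rw [pow_add, map_mul, mul_smul, map_smul, h1, map_sum, algebraMap_smul, ← map_smul]
      have h5 := congrArg (fun y : M => ι (y : Fin n → K)) ha
      simp only [Submodule.coe_sum, Submodule.coe_smul, map_sum, map_smul] at h5
      rw [map_smul, ← h5]
      refine Finset.sum_congr rfl fun i _ => ?_
      rw [map_smul, hq i, algebraMap_smul]
    have hsu : IsUnit (algebraMap K (Localization.Away u) (u ^ (c + k'))) := by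
      rw [map_pow]
      exact (IsLocalization.Away.algebraMap_isUnit u).pow _
    obtain ⟨t, ht⟩ := hsu.exists_left_inv
    have h5 : p = t • (algebraMap K (Localization.Away u) (u ^ (c + k')) • p) := by
      rw [smul_smul, ht, one_smul]
    rw [h5, h4]
    exact Submodule.smul_mem _ _ (sum_mem fun i _ => Submodule.smul_mem _ _
      (Submodule.subset_span ⟨i, rfl⟩))

open QU62 in
/-- **Gabber's theorem in dimension three**, from the theorem `exists_HB` on lattices. -/
theorem gabber_of
    (hD : ∀ (K R : Type u) [CommRing K] [IsDomain K] [IsNoetherianRing K] [IsLocalRing K]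
      [CommRing R] [IsDomain R] [IsNoetherianRing R] [IsLocalRing R] [Algebra K R] (u x y : K)
      (_ : Ctx K R u x y) (M : Type u) [AddCommGroup M] [Module K M] [Module.Finite K M]
      (_ : TF u M) (k : ℕ)
      (_ : ∃ (s : ℕ) (p : Fin s → M) (χ : Fin s → M →ₗ[K] K),
        ∀ m : M, u ^ k • m = ∑ l, χ l m • p l),
      ∃ b c : ℕ, HB K M b (u ^ c))
    (K : Type u) [CommRing K] [IsDomain K] [IsNoetherianRing K] [IsLocalRing K]
    (u x y : K) (hu : Prime u) (hx : Prime (Ideal.Quotient.mk (Ideal.span {u}) x))
    (hy : ¬ Ideal.Quotient.mk (Ideal.span {u}) x ∣ Ideal.Quotient.mk (Ideal.span {u}) y)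
    (hm : maximalIdeal K = Ideal.span {u, x, y}) : PF (Localization.Away u) := by
  classical
  intro P _ _ hfin hproj
  have hpr : (Ideal.span {u}).IsPrime := (Ideal.span_singleton_prime hu.ne_zero).2 hu
  have hdom : IsDomain (K ⧸ Ideal.span {u}) := Ideal.Quotient.isDomain _
  have hloc : IsLocalRing (K ⧸ Ideal.span {u}) :=
    IsLocalRing.of_surjective' (Ideal.Quotient.mk _) Ideal.Quotient.mk_surjective
  have hmax : maximalIdeal (K ⧸ Ideal.span {u}) =
      Ideal.span {Ideal.Quotient.mk (Ideal.span {u}) x, Ideal.Quotient.mk (Ideal.span {u}) y} := by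
    have h9 : (maximalIdeal K).map (Ideal.Quotient.mk (Ideal.span {u})) =
        maximalIdeal (K ⧸ Ideal.span {u}) :=
      map_maximalIdeal_of_surjective _ Ideal.Quotient.mk_surjective
    rw [← h9, hm, Ideal.map_span, Set.image_insert_eq, Set.image_insert_eq, Set.image_singleton]
    have h0 : (Ideal.Quotient.mk (Ideal.span {u})) u = 0 :=
      Ideal.Quotient.eq_zero_iff_mem.2 (Ideal.mem_span_singleton_self u)
    rw [h0]
    apply le_antisymm
    · rw [Ideal.span_le]
      rintro z (rfl | hz)
      · exact zero_mem _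
      · exact Ideal.subset_span hz
    · exact Ideal.span_mono (Set.subset_insert _ _)
  have hctx : Ctx K (K ⧸ Ideal.span {u}) u x y :=
    { pu := hu
      surj := Ideal.Quotient.mk_surjective
      ker := fun c => by
        rw [← Ideal.mem_span_singleton]
        exact Ideal.Quotient.eq_zero_iff_mem
      two := ⟨hx, hy, hmax⟩
      max := hm }
  obtain ⟨n, M, k, p, hM, hp, hfree⟩ := lattice K u hu P
  apply hfree
  have : Module.Finite K M := Module.Finite.iff_fg.2 (IsNoetherian.noetherian M)
  refine hD K (K ⧸ Ideal.span {u}) u x y hctx M ?_ k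
    ⟨n, p, fun l => LinearMap.proj l ∘ₗ M.subtype, hp⟩
  refine ⟨fun m hm => (smul_eq_zero.1 hm).resolve_left hu.ne_zero, ?_⟩
  intro c m m' hc hcm
  have h1 : ∀ i, u ∣ (m : Fin n → K) i := by
    intro i
    have h2 := congrFun (congrArg (fun z : M => (z : Fin n → K)) hcm) i
    have h3 : c * (m : Fin n → K) i = u * (m' : Fin n → K) i := h2
    exact (hu.dvd_or_dvd ⟨_, h3⟩).resolve_left hc
  choose w hw using h1
  have h4 : (m : Fin n → K) = u • w := funext hw
  refine ⟨⟨w, hM u w hu.ne_zero (by rw [← h4]; exact m.2)⟩, Subtype.ext h4⟩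

end Pool.Agent.QU53
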