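import Pool.Agent.Lib.QU53.Defs

/-!
# Basic facts on `HB`
-/

set_option autoImplicit false

namespace Pool.Agent.QU53

universe u

open Submodule

/-- Uniqueness of the rank. -/
theorem HB_le {B : Type u} [CommRing B] [IsDomain B] {P : Type u} [AddCommGroup P] [Module B P]
    {k k' : ℕ} {h h' : B} (hh : h ≠ 0) (H : HB B P k h) (H' : HB B P k' h') : k' ≤ k := by
  classical
  obtain ⟨b, hb, hs⟩ := H
  obtain ⟨b', hb', -⟩ := H'
  have hli : LinearIndependent B (fun i => h • b' i) := by
    rw [Fintype.linearIndependent_iff] at hb' ⊢
    intro g hg i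
    have h1 : ∑ i, (g i * h) • b' i = 0 := by
      rw [← hg]
      exact Finset.sum_congr rfl fun i _ => mul_smul _ _ _
    have h2 := hb' _ h1 i
    exact (mul_eq_zero.1 h2).resolve_right hh
  have h3 := linearIndependent_le_span' (fun i => h • b' i) hli (Set.range b) (by
    rintro _ ⟨i, rfl⟩
    exact hs _)
  have h4 : Fintype.card (Set.range b) ≤ k := by
    refine (Fintype.card_range_le b).trans ?_
    simp
  have h5 : k' ≤ Fintype.card (Set.range b) := by
    have h6 : ((k' : ℕ) : Cardinal.{u}) ≤ Fintype.card (Set.range b) := by simpa using h3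
    exact_mod_cast h6
  exact h5.trans h4

theorem HB_unique {B : Type u} [CommRing B] [IsDomain B] {P : Type u} [AddCommGroup P]
    [Module B P] {k k' : ℕ} {h h' : B} (hh : h ≠ 0) (hh' : h' ≠ 0) (H : HB B P k h)
    (H' : HB B P k' h') : k = k' :=
  le_antisymm (HB_le hh' H' H) (HB_le hh H H')

/-- From freeness of the localisation. -/
theorem exists_HB_of_free {B : Type u} [CommRing B] [IsDomain B] (M : Submonoid B)
    (hM : (0 : B) ∉ M) (P : Type u) [AddCommGroup P] [Module B P] [Module.Finite B P]
    (h : Module.Free (Localization M) (LocalizedModule M P)) : ∃ k, ∃ m ∈ M, HB B P k m := by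
  classical
  have hinj : Function.Injective (algebraMap B (Localization M)) :=
    IsLocalization.injective _ (le_nonZeroDivisors_of_noZeroDivisors hM)
  have : Nontrivial (Localization M) := by
    refine ⟨⟨0, 1, fun h => ?_⟩⟩
    have h1 : algebraMap B (Localization M) 0 = algebraMap B (Localization M) 1 := by
      rw [map_zero, map_one]; exact h
    exact zero_ne_one (hinj h1)
  have hfin : Module.Finite (Localization M) (LocalizedModule M P) :=
    Module.Finite.of_isLocalizedModule M (Rₚ := Localization M)
      (LocalizedModule.mkLinearMap M P)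
  obtain ⟨k, ⟨bb⟩⟩ : ∃ k, Nonempty (Module.Basis (Fin k) (Localization M) (LocalizedModule M P)) :=
    ⟨_, ⟨Module.finBasis _ _⟩⟩
  have h1 : ∀ i, ∃ (p : P) (m : M), bb i = LocalizedModule.mk p m := by
    intro i
    induction hi : bb i using LocalizedModule.induction_on with
    | h p m => exact ⟨p, m, rfl⟩
  choose p m hpm using h1
  have h2 : ∀ i, LocalizedModule.mkLinearMap M P (p i) =
      algebraMap B (Localization M) (m i) • bb i := by
    intro i
    rw [hpm, LocalizedModule.mkLinearMap_apply, algebraMap_smul, LocalizedModule.smul'_mk]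
    exact (LocalizedModule.mk_cancel (m i) (p i)).symm
  have hu : ∀ i, IsUnit (algebraMap B (Localization M) (m i)) := fun i =>
    IsLocalization.map_units _ (m i)
  -- every element of the localisation has a multiple in the image of the span
  have h3 : ∀ x : LocalizedModule M P, ∃ t : M, ∃ y : Fin k → B,
      (t : B) • x = LocalizedModule.mkLinearMap M P (∑ i, y i • p i) := by
    intro x
    have e1 : x = ∑ i, (bb.repr x i * (↑((hu i).unit⁻¹) : Localization M)) •
        LocalizedModule.mkLinearMap M P (p i) := by
      conv_lhs => rw [← bb.sum_repr x]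
      refine Finset.sum_congr rfl fun i _ => ?_
      rw [h2, smul_smul, mul_assoc, IsUnit.val_inv_mul, mul_one]
    obtain ⟨t, ht⟩ := IsLocalization.exist_integer_multiples_of_finset M
      (Finset.univ.image fun i => bb.repr x i * (↑((hu i).unit⁻¹) : Localization M))
    have h4 : ∀ i, ∃ y : B, algebraMap B (Localization M) y =
        (t : B) • (bb.repr x i * (↑((hu i).unit⁻¹) : Localization M)) := by
      intro i
      exact ht _ (Finset.mem_image_of_mem _ (Finset.mem_univ i))
    choose y hy using h4
    refine ⟨t, y, ?_⟩
    conv_lhs => rw [e1]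
    rw [Finset.smul_sum, map_sum]
    refine Finset.sum_congr rfl fun i _ => ?_
    rw [← smul_assoc, ← hy, map_smul, algebraMap_smul]
  -- a multiple of every element of `P`
  have h4 : ∀ q : P, ∃ t : M, (t : B) • q ∈ span B (Set.range p) := by
    intro q
    obtain ⟨t, y, hy⟩ := h3 (LocalizedModule.mkLinearMap M P q)
    rw [← map_smul] at hy
    obtain ⟨c, hc⟩ := (IsLocalizedModule.eq_iff_exists M (LocalizedModule.mkLinearMap M P)).1 hy
    refine ⟨c * t, ?_⟩
    have h5 : ((c * t : M) : B) • q = (c : B) • ∑ i, y i • p i := by
      rw [Submonoid.coe_mul, mul_smul]; exact hc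
    rw [h5]
    refine Submodule.smul_mem _ _ (Submodule.sum_mem _ fun i _ => Submodule.smul_mem _ _ ?_)
    exact subset_span ⟨i, rfl⟩
  obtain ⟨G, hG⟩ := Module.Finite.fg_top (R := B) (M := P)
  choose t ht using h4
  refine ⟨k, ((∏ g ∈ G, t g : M) : B), Subtype.prop _, p, ?_, ?_⟩
  · rw [Fintype.linearIndependent_iff]
    intro g hg i
    have h5 := congrArg (LocalizedModule.mkLinearMap M P) hg
    rw [map_sum, map_zero] at h5
    have h6 : ∑ i, algebraMap B (Localization M) (g i * m i) • bb i = 0 := by
      rw [← h5]
      refine Finset.sum_congr rfl fun i _ => ?_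
      rw [map_smul, h2, ← algebraMap_smul (Localization M) (g i), smul_smul, map_mul]
    have h7 := (Fintype.linearIndependent_iff.1 bb.linearIndependent) _ h6 i
    have h8 : g i * (m i : B) = 0 := hinj (by rw [h7, map_zero])
    refine (mul_eq_zero.1 h8).resolve_right fun h9 => hM ?_
    rw [← h9]; exact (m i).2
  · intro q
    have hq : q ∈ span B (G : Set P) := by rw [hG]; trivial
    induction hq using Submodule.span_induction with
    | mem x hx =>
      obtain ⟨c, hc⟩ := Finset.dvd_prod_of_mem t (Finset.mem_coe.1 hx)
      rw [hc, mul_comm, Submonoid.coe_mul, mul_smul]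
      exact Submodule.smul_mem _ _ (ht x)
    | zero => rw [smul_zero]; exact Submodule.zero_mem _
    | add x y _ _ hx hy => rw [smul_add]; exact Submodule.add_mem _ hx hy
    | smul a x _ hx => rw [smul_comm]; exact Submodule.smul_mem _ _ hx

/-- R9b: from freeness over the localisation to `HB`. -/
theorem exists_HB {B : Type u} [CommRing B] [IsDomain B] (M : Submonoid B) (hM : (0 : B) ∉ M)
    (P : Type u) [AddCommGroup P] [Module B P] [Module.Finite B P] [Module.Projective B P]
    (h : PF (Localization M)) : ∃ k, ∃ m ∈ M, HB B P k m := by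
  refine exists_HB_of_free M hM P (h _ ?_ ?_)
  · exact Module.Finite.of_isLocalizedModule M (Rₚ := Localization M)
      (LocalizedModule.mkLinearMap M P)
  · exact Module.projective_of_isLocalizedModule (Rₛ := Localization M) M
      (LocalizedModule.mkLinearMap M P)

/-- At a prime ideal. -/
theorem exists_HB_prime {B : Type u} [CommRing B] [IsDomain B] {P : Type u} [AddCommGroup P]
    [Module B P] [Module.Finite B P] [Module.Projective B P] {k : ℕ} {h : B} (hh : h ≠ 0)
    (H : HB B P k h) (n : Ideal B) [n.IsPrime] : ∃ s, s ∉ n ∧ HB B P k s := by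
  have hM : (0 : B) ∉ n.primeCompl := fun h0 => h0 n.zero_mem
  have hfree : Module.Free (Localization n.primeCompl) (LocalizedModule n.primeCompl P) := by
    have : Module.Finite (Localization n.primeCompl) (LocalizedModule n.primeCompl P) :=
      Module.Finite.of_isLocalizedModule n.primeCompl (Rₚ := Localization n.primeCompl)
        (LocalizedModule.mkLinearMap n.primeCompl P)
    have : Module.Projective (Localization n.primeCompl) (LocalizedModule n.primeCompl P) :=
      Module.projective_of_isLocalizedModule (Rₛ := Localization n.primeCompl) n.primeCompl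
        (LocalizedModule.mkLinearMap n.primeCompl P)
    have : IsLocalRing (Localization n.primeCompl) := inferInstanceAs
      (IsLocalRing (Localization.AtPrime n))
    exact Module.free_of_flat_of_isLocalRing
  obtain ⟨k', s, hs, H'⟩ := exists_HB_of_free n.primeCompl hM P hfree
  have hs0 : s ≠ 0 := fun h0 => hM (h0 ▸ hs)
  have : k = k' := HB_unique hh hs0 H H'
  subst this
  exact ⟨s, hs, H'⟩

end Pool.Agent.QU53
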