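import Pool.Agent.Lib.QU53.Defs

/-!
# Quillen patching, matrix form

`R2.cj_of_local`: a square matrix `e(T)` over `A[T]` which is conjugate to `e(0)` over `A_m[T]` for
all maximal ideals `m` of `A` is conjugate to `e(0)` over `A[T]` (`A` any commutative ring).
`matrix_patch`: the same in the words of the skeleton.
-/

set_option autoImplicit false

open Polynomial

namespace Pool.Agent.QU53.R2

universe u

variable {ι : Type*} [Fintype ι] [DecidableEq ι]

/-- Two square matrices over a ring are conjugate. -/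
def Cj {R : Type*} [CommRing R] (e f : Matrix ι ι R) : Prop :=
  ∃ g h : Matrix ι ι R, g * h = 1 ∧ h * g = 1 ∧ f = g * e * h

namespace Cj

variable {R S : Type*} [CommRing R] [CommRing S]

theorem refl (e : Matrix ι ι R) : Cj e e := ⟨1, 1, by simp, by simp, by simp⟩

theorem symm {e f : Matrix ι ι R} (h : Cj e f) : Cj f e := by
  obtain ⟨g, k, h1, h2, h3⟩ := h
  refine ⟨k, g, h2, h1, ?_⟩
  rw [h3]
  calc e = (k * g) * e * (k * g) := by rw [h2]; simp
    _ = k * (g * e * k) * g := by simp only [Matrix.mul_assoc]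

theorem trans {e f d : Matrix ι ι R} (h : Cj e f) (h' : Cj f d) : Cj e d := by
  obtain ⟨g, k, h1, h2, h3⟩ := h
  obtain ⟨g', k', h1', h2', h3'⟩ := h'
  refine ⟨g' * g, k * k', ?_, ?_, ?_⟩
  · calc g' * g * (k * k') = g' * (g * k) * k' := by simp only [Matrix.mul_assoc]
      _ = 1 := by rw [h1]; simpa using h1'
  · calc k * k' * (g' * g) = k * (k' * g') * g := by simp only [Matrix.mul_assoc]
      _ = 1 := by rw [h2']; simpa using h2
  · rw [h3', h3]; simp only [Matrix.mul_assoc]

theorem map {e f : Matrix ι ι R} (h : Cj e f) (φ : R →+* S) : Cj (e.map φ) (f.map φ) := by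
  obtain ⟨g, k, h1, h2, h3⟩ := h
  refine ⟨g.map φ, k.map φ, ?_, ?_, ?_⟩
  · rw [← Matrix.map_mul, h1]; simp
  · rw [← Matrix.map_mul, h2]; simp
  · rw [h3, Matrix.map_mul, Matrix.map_mul]

end Cj

section Sub

variable {A : Type*} [CommRing A]

/-- The substitution `T ↦ T + s X`, from `A[T]` to `A[T][X]`. -/
noncomputable def sb (s : A) : A[X] →+* A[X][X] :=
  eval₂RingHom (C.comp C) (C X + C (C s) * X)

/-- The substitution `X ↦ a X` on `A[T][X]`. -/
noncomputable def sc (a : A) : A[X][X] →+* A[X][X] :=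
  eval₂RingHom C (C (C a) * X)

/-- The substitution `T ↦ T + s X`, `X ↦ X` on `A[T][X]`. -/
noncomputable def sh (s : A) : A[X][X] →+* A[X][X] :=
  eval₂RingHom (sb s) X

/-- The substitution `T ↦ 0`, `X ↦ T` from `A[T][X]` to `A[T]`. -/
noncomputable def sz : A[X][X] →+* A[X] :=
  eval₂RingHom (C.comp (evalRingHom 0)) X

theorem sb_X (s : A) : sb s X = C X + C (C s) * X := by simp [sb]

theorem sb_C (s a : A) : sb s (C a) = C (C a) := by simp [sb]

theorem sb_zero : sb (0 : A) = C := by
  ext a
  · simp [sb]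
  · simp [sb]

theorem sc_comp_sb (a s : A) : (sc a).comp (sb s) = sb (a * s) := by
  apply Polynomial.ringHom_ext'
  · ext x; simp [sb, sc]
  · simp [sb, sc]; ring

theorem sh_comp_sb (s t : A) : (sh s).comp (sb t) = sb (s + t) := by
  apply Polynomial.ringHom_ext'
  · ext x; simp [sb, sh]
  · simp [sb, sh]; ring

theorem sh_comp_C (s : A) : (sh s).comp C = sb s := by
  apply Polynomial.ringHom_ext'
  · ext x; simp [sb, sh]
  · simp [sb, sh]

theorem sc_comp_C (s : A) : (sc s).comp C = C := by
  apply Polynomial.ringHom_ext'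
  · ext x; simp [sc]
  · simp [sc]

theorem sz_comp_sb_one : (sz).comp (sb (1 : A)) = RingHom.id A[X] := by
  apply Polynomial.ringHom_ext'
  · ext x; simp [sb, sz]
  · simp [sb, sz]

theorem sz_comp_C : (sz (A := A)).comp C = C.comp (evalRingHom 0) := by
  apply Polynomial.ringHom_ext'
  · ext x; simp [sz]
  · simp [sz]

/-- The ideal of the `s` for which `e(T + s X)` is conjugate to `e(T)` over `A[T][X]`. -/
noncomputable def cjIdeal (e : Matrix ι ι A[X]) : Ideal A where
  carrier := {s | Cj (e.map C) (e.map (sb s))}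
  zero_mem' := by
    simp only [Set.mem_ofPred_eq, sb_zero]
    exact Cj.refl _
  add_mem' := by
    intro s t hs ht
    simp only [Set.mem_ofPred_eq] at hs ht ⊢
    have h := ht.map (sh s)
    rw [Matrix.map_map, Matrix.map_map, ← RingHom.coe_comp, ← RingHom.coe_comp, sh_comp_C,
      sh_comp_sb] at h
    exact hs.trans h
  smul_mem' := by
    intro a s hs
    simp only [Set.mem_ofPred_eq, smul_eq_mul] at hs ⊢
    have h := hs.map (sc a)
    rw [Matrix.map_map, Matrix.map_map, ← RingHom.coe_comp, ← RingHom.coe_comp, sc_comp_C,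
      sc_comp_sb] at h
    exact h

theorem mem_cjIdeal {e : Matrix ι ι A[X]} {s : A} :
    s ∈ cjIdeal e ↔ Cj (e.map C) (e.map (sb s)) := Iff.rfl

theorem cj_of_one_mem {e : Matrix ι ι A[X]} (h : (1 : A) ∈ cjIdeal e) :
    Cj (e.map (C.comp (evalRingHom 0))) e := by
  have h' := (mem_cjIdeal.1 h).map sz
  rw [Matrix.map_map, Matrix.map_map, ← RingHom.coe_comp, ← RingHom.coe_comp, sz_comp_C,
    sz_comp_sb_one] at h'
  simpa using h'

end Sub

section Den

variable {A : Type*} [CommRing A] (M : Submonoid A) (B : Type*) [CommRing B] [Algebra A B]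
  [IsLocalization M B]

include M in
theorem den_one (p : B[X]) :
    ∃ s ∈ M, ∃ P : A[X], P.map (algebraMap A B) = C (algebraMap A B s) * p := by
  induction p using Polynomial.induction_on' with
  | add p q hp hq =>
    obtain ⟨s, hs, P, hP⟩ := hp
    obtain ⟨t, ht, Q, hQ⟩ := hq
    refine ⟨s * t, M.mul_mem hs ht, C t * P + C s * Q, ?_⟩
    rw [Polynomial.map_add, Polynomial.map_mul, Polynomial.map_mul, hP, hQ]
    simp only [map_C, map_mul]
    ring
  | monomial n b =>
    obtain ⟨⟨a, s⟩, h⟩ := IsLocalization.surj M b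
    refine ⟨s, s.2, Polynomial.monomial n a, ?_⟩
    rw [Polynomial.map_monomial, Polynomial.C_mul_monomial, mul_comm _ b]
    simp only at h
    rw [h]

/-- The map `A[T][X] → B[T][X]`. -/
noncomputable def jj : A[X][X] →+* B[X][X] :=
  mapRingHom (mapRingHom (algebraMap A B))

include M in
theorem den_two (p : B[X][X]) :
    ∃ s ∈ M, ∃ P : A[X][X], jj (A := A) B P = C (C (algebraMap A B s)) * p := by
  induction p using Polynomial.induction_on' with
  | add p q hp hq =>
    obtain ⟨s, hs, P, hP⟩ := hp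
    obtain ⟨t, ht, Q, hQ⟩ := hq
    refine ⟨s * t, M.mul_mem hs ht, C (C t) * P + C (C s) * Q, ?_⟩
    rw [map_add, map_mul, map_mul, hP, hQ]
    simp only [jj, coe_mapRingHom, map_C, map_mul]
    ring
  | monomial n b =>
    obtain ⟨s, hs, P, h⟩ := den_one M B b
    refine ⟨s, hs, Polynomial.monomial n P, ?_⟩
    rw [jj, coe_mapRingHom, Polynomial.map_monomial, Polynomial.C_mul_monomial]
    rw [coe_mapRingHom, h]

omit [DecidableEq ι] in
include M in
theorem den_mat (w : Matrix ι ι B[X][X]) :
    ∃ s ∈ M, ∃ W : Matrix ι ι A[X][X], ∀ i k, jj (A := A) B (W i k) =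
      C (C (algebraMap A B s)) * w i k := by
  classical
  choose s hs P hP using fun ik : ι × ι => den_two M B (w ik.1 ik.2)
  refine ⟨∏ ik, s ik, Submonoid.prod_mem _ fun ik _ => hs ik, ?_⟩
  choose t ht using fun ik : ι × ι => Finset.dvd_prod_of_mem s (Finset.mem_univ ik)
  refine ⟨Matrix.of fun i k => C (C (t (i, k))) * P (i, k), fun i k => ?_⟩
  rw [Matrix.of_apply, map_mul, hP (i, k), ht (i, k)]
  simp only [jj, coe_mapRingHom, map_C, map_mul]
  ring

include M in
theorem kil_one (p : A[X]) (h : p.map (algebraMap A B) = 0) : ∃ s ∈ M, C s * p = 0 := by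
  classical
  have h1 : ∀ i, ∃ s ∈ M, s * p.coeff i = 0 := fun i => by
    have : algebraMap A B (p.coeff i) = 0 := by
      rw [← Polynomial.coeff_map, h, Polynomial.coeff_zero]
    obtain ⟨s, hs⟩ := (IsLocalization.map_eq_zero_iff M B _).1 this
    exact ⟨s, s.2, hs⟩
  choose s hs h2 using h1
  refine ⟨∏ i ∈ p.support, s i, Submonoid.prod_mem _ fun i _ => hs i, ?_⟩
  ext i
  rw [coeff_C_mul, coeff_zero]
  by_cases hi : i ∈ p.support
  · obtain ⟨t, ht⟩ := Finset.dvd_prod_of_mem s hi
    rw [ht, mul_comm (s i), mul_assoc, h2, mul_zero]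
  · rw [Polynomial.notMem_support_iff.1 hi, mul_zero]

include M in
theorem kil_two (p : A[X][X]) (h : jj (A := A) B p = 0) : ∃ s ∈ M, C (C s) * p = 0 := by
  classical
  have h1 : ∀ i, ∃ s ∈ M, C s * p.coeff i = 0 := fun i => by
    refine kil_one M B _ ?_
    have := congrArg (fun q => Polynomial.coeff q i) h
    simpa [jj, Polynomial.coeff_map] using this
  choose s hs h2 using h1
  refine ⟨∏ i ∈ p.support, s i, Submonoid.prod_mem _ fun i _ => hs i, ?_⟩
  ext1 i
  rw [coeff_C_mul, coeff_zero]
  by_cases hi : i ∈ p.support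
  · obtain ⟨t, ht⟩ := Finset.dvd_prod_of_mem s hi
    rw [ht, mul_comm (s i), C_mul, mul_assoc, h2, mul_zero]
  · rw [Polynomial.notMem_support_iff.1 hi, mul_zero]

theorem sc_jj (t : A) (p : A[X][X]) :
    jj (A := A) B (sc t p) = sc (algebraMap A B t) (jj (A := A) B p) := by
  have : (jj (A := A) B).comp (sc t) = (sc (algebraMap A B t)).comp (jj (A := A) B) := by
    apply Polynomial.ringHom_ext'
    · apply Polynomial.ringHom_ext'
      · ext x; simp [sc, jj]
      · simp [sc, jj]
    · simp [sc, jj]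
  exact congrArg (fun f => f p) this

theorem sb_jj (t : A) (p : A[X]) :
    jj (A := A) B (sb t p) = sb (algebraMap A B t) (p.map (algebraMap A B)) := by
  have : (jj (A := A) B).comp (sb t) =
      (sb (algebraMap A B t)).comp (mapRingHom (algebraMap A B)) := by
    apply Polynomial.ringHom_ext'
    · ext x; simp [sb, jj]
    · simp [sb, jj]
  exact congrArg (fun f => f p) this

theorem sc_comp_sc (a b : A) : (sc a).comp (sc b) = sc (a * b) := by
  apply Polynomial.ringHom_ext'
  · ext x <;> simp [sc]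
  · simp [sc]; ring

/-- Evaluation at `X = 0` on `A[T][X]`. -/
noncomputable def ev : A[X][X] →+* A[X] := evalRingHom 0

theorem ev_comp_sc (a : A) : (ev).comp (sc a) = ev := by
  apply Polynomial.ringHom_ext'
  · ext x <;> simp [sc, ev]
  · simp [sc, ev]

theorem ev_comp_sb (a : A) : (ev).comp (sb a) = RingHom.id A[X] := by
  apply Polynomial.ringHom_ext'
  · ext x; simp [sb, ev]
  · simp [sb, ev]

theorem ev_comp_C : (ev (A := A)).comp C = RingHom.id A[X] := by
  ext x <;> simp [ev]

theorem eq_of_ev (p : A[X][X]) : p = X * p.divX + C (ev p) := by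
  conv_lhs => rw [← Polynomial.X_mul_divX_add p]
  rw [ev, coe_evalRingHom, ← Polynomial.coeff_zero_eq_eval_zero]

include M in
theorem lift_mat (w : Matrix ι ι B[X][X]) (hw : w.map ev = 1) :
    ∃ s ∈ M, ∃ W : Matrix ι ι A[X][X], W.map (jj (A := A) B) = w.map (sc (algebraMap A B s)) ∧
      W.map ev = 1 := by
  obtain ⟨s, hs, Q, hQ⟩ := den_mat M B (Matrix.of fun i k => (w i k).divX)
  refine ⟨s, hs, Matrix.of fun i k => X * sc s (Q i k) + C ((1 : Matrix ι ι A[X]) i k), ?_, ?_⟩
  · ext1 i k
    have h1 : ev (w i k) = (1 : Matrix ι ι B[X]) i k := by rw [← hw]; rfl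
    rw [Matrix.map_apply, Matrix.map_apply, Matrix.of_apply, map_add, map_mul, sc_jj, hQ,
      Matrix.of_apply]
    conv_rhs => rw [eq_of_ev (w i k), h1]
    rw [map_add, map_mul, map_mul]
    have e1 : jj (A := A) B X = X := by simp [jj]
    have e2 : jj (A := A) B (C ((1 : Matrix ι ι A[X]) i k)) =
        C ((1 : Matrix ι ι B[X]) i k) := by
      rw [Matrix.one_apply, Matrix.one_apply]
      split_ifs <;> simp [jj]
    have e3 : sc (algebraMap A B s) (C ((1 : Matrix ι ι B[X]) i k)) =
        C ((1 : Matrix ι ι B[X]) i k) := by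
      rw [Matrix.one_apply]
      split_ifs <;> simp [sc]
    have e4 : sc (algebraMap A B s) (X : B[X][X]) = C (C (algebraMap A B s)) * X := by
      simp [sc]
    have e5 : sc (algebraMap A B s) (C (C (algebraMap A B s)) : B[X][X]) =
        C (C (algebraMap A B s)) := by
      simp [sc]
    rw [e1, e2, e3, e4, e5]
    ring
  · ext1 i k
    rw [Matrix.map_apply, Matrix.of_apply, map_add, map_mul]
    simp [ev]

include M in
theorem kil_ev (q : A[X][X]) (e1 : jj (A := A) B q = 0) (e2 : ev q = 0) :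
    ∃ s ∈ M, ∀ t, s ∣ t → sc t q = 0 := by
  have e3 : q = X * q.divX := by
    conv_lhs => rw [eq_of_ev q, e2, C_0, add_zero]
  have e4 : jj (A := A) B q.divX = 0 := by
    rw [e3, map_mul] at e1
    have e5 : jj (A := A) B X = X := by simp [jj]
    rw [e5] at e1
    ext1 n
    have := congrArg (fun z => Polynomial.coeff z (n + 1)) e1
    simpa only [coeff_X_mul, coeff_zero] using this
  obtain ⟨s, hs, h⟩ := kil_two M B _ e4
  refine ⟨s, hs, ?_⟩
  rintro t ⟨r, rfl⟩
  rw [e3, map_mul]
  have e6 : sc (s * r) (X : A[X][X]) = C (C (s * r)) * X := by simp [sc]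
  have e7 : C (C (s * r)) * sc (s * r) q.divX = C (C r) * sc (s * r) (C (C s) * q.divX) := by
    have e5 : sc (s * r) (C (C s) : A[X][X]) = C (C s) := by simp [sc]
    rw [map_mul (sc (s * r)) (C (C s)) q.divX, e5, C_mul, C_mul]
    ring
  rw [e6, mul_right_comm, e7, h, map_zero, mul_zero, zero_mul]

omit [DecidableEq ι] in
include M in
theorem kil_mat (w : Matrix ι ι A[X][X]) (h1 : w.map (jj (A := A) B) = 0) (h2 : w.map ev = 0) :
    ∃ s ∈ M, w.map (sc s) = 0 := by
  classical
  have h3 : ∀ ik : ι × ι, ∃ s ∈ M, ∀ t, s ∣ t → sc t (w ik.1 ik.2) = 0 := fun ik =>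
    kil_ev M B _ (by simpa using congrArg (fun z => z ik.1 ik.2) h1)
      (by simpa using congrArg (fun z => z ik.1 ik.2) h2)
  choose s hs h using h3
  refine ⟨∏ ik, s ik, Submonoid.prod_mem _ fun ik _ => hs ik, ?_⟩
  ext1 i k
  rw [Matrix.map_apply, Matrix.zero_apply]
  exact h (i, k) _ (Finset.dvd_prod_of_mem s (Finset.mem_univ (i, k)))

include M in
/-- **The local step.** If `e(T)` is conjugate to `e(0)` over `B[T]`, `B` a localization of `A` at
`M`, then some `s` of `M` is in `cjIdeal e`. -/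
theorem exists_mem_of_local (e : Matrix ι ι A[X])
    (h : Cj (e.map (mapRingHom (algebraMap A B)))
      ((e.map (mapRingHom (algebraMap A B))).map (C.comp (evalRingHom 0)))) :
    ∃ s ∈ M, s ∈ cjIdeal e := by
  obtain ⟨g, k, h1, h2, h3⟩ := h
  set eB := e.map (mapRingHom (algebraMap A B)) with heB
  have hsc : (sb (1 : B)).comp (C.comp (evalRingHom 0)) = C.comp (C.comp (evalRingHom 0)) := by
    apply Polynomial.ringHom_ext'
    · ext x; simp [sb]
    · simp [sb]
  have hc0 : (eB.map (C.comp (evalRingHom 0))).map C =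
      (eB.map (C.comp (evalRingHom 0))).map (sb (1 : B)) := by
    ext1 i j
    exact (congrArg (fun f : B[X] →+* B[X][X] => f (eB i j)) hsc).symm
  have ha : (g.map C) * (eB.map C) * (k.map C) =
      (g.map (sb (1 : B))) * (eB.map (sb (1 : B))) * (k.map (sb (1 : B))) := by
    rw [← Matrix.map_mul, ← Matrix.map_mul, ← Matrix.map_mul, ← Matrix.map_mul, ← h3]
    exact hc0
  have hgk : ∀ φ : B[X] →+* B[X][X], g.map φ * k.map φ = 1 := fun φ => by
    rw [← Matrix.map_mul, h1]; simp
  have hkg : ∀ φ : B[X] →+* B[X][X], k.map φ * g.map φ = 1 := fun φ => by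
    rw [← Matrix.map_mul, h2]; simp
  set w : Matrix ι ι B[X][X] := k.map (sb (1 : B)) * g.map C with hw
  set w' : Matrix ι ι B[X][X] := k.map C * g.map (sb (1 : B)) with hw'
  have hww : w * w' = 1 := by
    rw [hw, hw']
    calc k.map (sb (1 : B)) * g.map C * (k.map C * g.map (sb (1 : B)))
        = k.map (sb (1 : B)) * (g.map C * k.map C) * g.map (sb (1 : B)) := by
          simp only [Matrix.mul_assoc]
      _ = 1 := by rw [hgk C, Matrix.mul_one, hkg]
  have hww' : w' * w = 1 := by
    rw [hw, hw']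
    calc k.map C * g.map (sb (1 : B)) * (k.map (sb (1 : B)) * g.map C)
        = k.map C * (g.map (sb (1 : B)) * k.map (sb (1 : B))) * g.map C := by
          simp only [Matrix.mul_assoc]
      _ = 1 := by rw [hgk (sb 1), Matrix.mul_one, hkg]
  have hwe : w * eB.map C * w' = eB.map (sb (1 : B)) := by
    calc w * eB.map C * w'
        = k.map (sb (1 : B)) * (g.map C * eB.map C * k.map C) * g.map (sb (1 : B)) := by
          rw [hw, hw']; simp only [Matrix.mul_assoc]
      _ = (k.map (sb (1 : B)) * g.map (sb (1 : B))) * eB.map (sb (1 : B)) *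
            (k.map (sb (1 : B)) * g.map (sb (1 : B))) := by
          rw [ha]; simp only [Matrix.mul_assoc]
      _ = eB.map (sb (1 : B)) := by rw [hkg, Matrix.one_mul, Matrix.mul_one]
  have hev : ∀ a b : Matrix ι ι B[X], ∀ s t : B,
      (a.map (sb s) * b.map C).map ev = a * b ∧ (a.map C * b.map (sb t)).map ev = a * b := by
    intro a b s t
    constructor
    · rw [Matrix.map_mul, Matrix.map_map, Matrix.map_map, ← RingHom.coe_comp, ← RingHom.coe_comp,
        ev_comp_sb, ev_comp_C]
      simp
    · rw [Matrix.map_mul, Matrix.map_map, Matrix.map_map, ← RingHom.coe_comp, ← RingHom.coe_comp,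
        ev_comp_sb, ev_comp_C]
      simp
  have hwev : w.map ev = 1 := by rw [hw, (hev k g 1 1).1, h2]
  have hwev' : w'.map ev = 1 := by rw [hw', (hev k g 1 1).2, h2]
  obtain ⟨s, hs, W, hW, hW1⟩ := lift_mat M B w hwev
  obtain ⟨t, ht, W', hW', hW1'⟩ := lift_mat M B w' hwev'
  -- a common denominator
  set V := W.map (sc t) with hV
  set V' := W'.map (sc s) with hV'
  have hVj : V.map (jj (A := A) B) = w.map (sc (algebraMap A B (t * s))) := by
    ext1 i j
    have := congrArg (fun z => z i j) hW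
    simp only [Matrix.map_apply] at this
    rw [hV, Matrix.map_apply, Matrix.map_apply, sc_jj, this, Matrix.map_apply, map_mul,
      ← sc_comp_sc]
    rfl
  have hVj' : V'.map (jj (A := A) B) = w'.map (sc (algebraMap A B (t * s))) := by
    ext1 i j
    have := congrArg (fun z => z i j) hW'
    simp only [Matrix.map_apply] at this
    rw [hV', Matrix.map_apply, Matrix.map_apply, sc_jj, this, Matrix.map_apply, mul_comm t s,
      map_mul, ← sc_comp_sc]
    rfl
  have hVe : V.map ev = 1 := by
    rw [hV, Matrix.map_map, ← RingHom.coe_comp, ev_comp_sc, hW1]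
  have hVe' : V'.map ev = 1 := by
    rw [hV', Matrix.map_map, ← RingHom.coe_comp, ev_comp_sc, hW1']
  -- the three error terms
  have hone : (1 : Matrix ι ι B[X][X]).map (sc (algebraMap A B (t * s))) = 1 := by simp
  have k1 : (V * V' - 1).map (jj (A := A) B) = 0 := by
    rw [Matrix.map_sub _ (by intro a b; exact map_sub _ a b), Matrix.map_mul, hVj, hVj',
      ← Matrix.map_mul, hww]
    simp
  have k2 : (V' * V - 1).map (jj (A := A) B) = 0 := by
    rw [Matrix.map_sub _ (by intro a b; exact map_sub _ a b), Matrix.map_mul, hVj, hVj',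
      ← Matrix.map_mul, hww']
    simp
  have heC : (e.map C).map (jj (A := A) B) = (eB.map C).map (sc (algebraMap A B (t * s))) := by
    ext1 i j
    simp only [Matrix.map_apply, heB]
    simp [jj, sc]
  have heS : (e.map (sb (t * s))).map (jj (A := A) B) =
      (eB.map (sb (1 : B))).map (sc (algebraMap A B (t * s))) := by
    ext1 i j
    simp only [Matrix.map_apply, heB]
    rw [sb_jj, ← RingHom.comp_apply (sc _) (sb _), sc_comp_sb, mul_one]
    rfl
  have k3 : (V * e.map C * V' - e.map (sb (t * s))).map (jj (A := A) B) = 0 := by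
    rw [Matrix.map_sub _ (by intro a b; exact map_sub _ a b), Matrix.map_mul, Matrix.map_mul, hVj,
      hVj', heC, heS, ← Matrix.map_mul, ← Matrix.map_mul, hwe, sub_self]
  have l1 : (V * V' - 1).map ev = 0 := by
    rw [Matrix.map_sub _ (by intro a b; exact map_sub _ a b), Matrix.map_mul, hVe, hVe']
    simp
  have l2 : (V' * V - 1).map ev = 0 := by
    rw [Matrix.map_sub _ (by intro a b; exact map_sub _ a b), Matrix.map_mul, hVe, hVe']
    simp
  have l3 : (V * e.map C * V' - e.map (sb (t * s))).map ev = 0 := by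
    rw [Matrix.map_sub _ (by intro a b; exact map_sub _ a b), Matrix.map_mul, Matrix.map_mul, hVe,
      hVe', Matrix.map_map, Matrix.map_map, ← RingHom.coe_comp, ← RingHom.coe_comp, ev_comp_sb,
      ev_comp_C]
    simp
  obtain ⟨r1, hr1, m1⟩ := kil_mat M B _ k1 l1
  obtain ⟨r2, hr2, m2⟩ := kil_mat M B _ k2 l2
  obtain ⟨r3, hr3, m3⟩ := kil_mat M B _ k3 l3
  have up : ∀ (a b : A) (E : Matrix ι ι A[X][X]), E.map (sc a) = 0 → E.map (sc (b * a)) = 0 := by
    intro a b E hE
    have : E.map (sc (b * a)) = (E.map (sc a)).map (sc b) := by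
      rw [Matrix.map_map, ← RingHom.coe_comp, sc_comp_sc]
    rw [this, hE]
    simp
  set r := r1 * r2 * r3 with hr
  have n1 := up r1 (r2 * r3) _ m1
  have n2 := up r2 (r1 * r3) _ m2
  have n3 := up r3 (r1 * r2) _ m3
  rw [show r2 * r3 * r1 = r by rw [hr]; ring] at n1
  rw [show r1 * r3 * r2 = r by rw [hr]; ring] at n2
  rw [Matrix.map_sub _ (by intro a b; exact map_sub _ a b), Matrix.map_mul, sub_eq_zero] at n1 n2
  rw [Matrix.map_sub _ (by intro a b; exact map_sub _ a b), Matrix.map_mul, Matrix.map_mul,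
    sub_eq_zero] at n3
  refine ⟨r * (t * s), M.mul_mem (M.mul_mem (M.mul_mem hr1 hr2) hr3) (M.mul_mem ht hs), ?_⟩
  rw [mem_cjIdeal]
  refine ⟨V.map (sc r), V'.map (sc r), by rw [n1]; simp, by rw [n2]; simp, ?_⟩
  have o1 : (e.map C).map (sc r) = e.map C := by
    rw [Matrix.map_map, ← RingHom.coe_comp, sc_comp_C]
  have o2 : (e.map (sb (t * s))).map (sc r) = e.map (sb (r * (t * s))) := by
    rw [Matrix.map_map, ← RingHom.coe_comp, sc_comp_sb]
  rw [← o2, ← n3, o1]

end Den

/-- **Quillen patching, matrix form.** -/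
theorem cj_of_local {A : Type*} [CommRing A] (e : Matrix ι ι A[X])
    (h : ∀ (m : Ideal A) [m.IsMaximal],
      Cj (e.map (mapRingHom (algebraMap A (Localization.AtPrime m))))
        ((e.map (mapRingHom (algebraMap A (Localization.AtPrime m)))).map
          (C.comp (evalRingHom 0)))) :
    Cj (e.map (C.comp (evalRingHom 0))) e := by
  refine cj_of_one_mem ?_
  rw [← Ideal.eq_top_iff_one]
  by_contra hne
  obtain ⟨m, hm, hle⟩ := Ideal.exists_le_maximal _ hne
  obtain ⟨s, hs, hs'⟩ := exists_mem_of_local m.primeCompl (Localization.AtPrime m) e (h m)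
  exact hs (hle hs')

end Pool.Agent.QU53.R2

namespace Pool.Agent.QU53

open Polynomial

universe u

/-- **Quillen patching for matrices**: if over every local ring `C_q` the matrix `e(T)` is
conjugate to a constant matrix, then it is conjugate to `e(0)` over `C[T]`. -/
theorem matrix_patch' {C' : Type u} [CommRing C'] {N : ℕ}
    (e : Matrix (Fin N) (Fin N) C'[X])
    (h : ∀ (q : Ideal C') [q.IsMaximal],
      ∃ (α β : Matrix (Fin N) (Fin N) (Localization.AtPrime q)[X])
      (e₀ : Matrix (Fin N) (Fin N) (Localization.AtPrime q)), α * β = 1 ∧ β * α = 1 ∧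
      e.map (Polynomial.mapRingHom (algebraMap C' (Localization.AtPrime q))) =
        α * e₀.map Polynomial.C * β) :
    ∃ γ δ : Matrix (Fin N) (Fin N) C'[X], γ * δ = 1 ∧ δ * γ = 1 ∧
      e = γ * (e.map fun p => Polynomial.C (p.eval 0)) * δ := by
  have hloc : ∀ (m : Ideal C') [m.IsMaximal],
      R2.Cj (e.map (mapRingHom (algebraMap C' (Localization.AtPrime m))))
        ((e.map (mapRingHom (algebraMap C' (Localization.AtPrime m)))).map
          (C.comp (evalRingHom 0))) := by
    intro m hm
    obtain ⟨α, β, e₀, h1, h2, h3⟩ := h m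
    have k1 : R2.Cj (e₀.map Polynomial.C)
        (e.map (mapRingHom (algebraMap C' (Localization.AtPrime m)))) := ⟨α, β, h1, h2, h3⟩
    have k2 := k1.map (C.comp (evalRingHom 0) :
      (Localization.AtPrime m)[X] →+* (Localization.AtPrime m)[X])
    have k3 : (e₀.map Polynomial.C).map (C.comp (evalRingHom 0) :
        (Localization.AtPrime m)[X] →+* (Localization.AtPrime m)[X]) = e₀.map Polynomial.C := by
      ext1 i j
      simp
    rw [k3] at k2
    exact k1.symm.trans k2
  obtain ⟨g, k, h1, h2, h3⟩ := R2.cj_of_local e hloc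
  exact ⟨g, k, h1, h2, h3⟩

/-- R2, Quillen patching for idempotent matrices. -/
theorem matrix_patch {C : Type u} [CommRing C] [IsDomain C] {N : ℕ}
    (e : Matrix (Fin N) (Fin N) C[X])
    (h : ∀ (q : Ideal C) [q.IsMaximal], ∃ (α β : Matrix (Fin N) (Fin N) (Localization.AtPrime q)[X])
      (e₀ : Matrix (Fin N) (Fin N) (Localization.AtPrime q)), α * β = 1 ∧ β * α = 1 ∧
      e.map (Polynomial.mapRingHom (algebraMap C (Localization.AtPrime q))) =
        α * e₀.map Polynomial.C * β) :
    ∃ γ δ : Matrix (Fin N) (Fin N) C[X], γ * δ = 1 ∧ δ * γ = 1 ∧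
      e = γ * (e.map fun p => Polynomial.C (p.eval 0)) * δ :=
  matrix_patch' e h

end Pool.Agent.QU53
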