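import Pool.Agent.Lib.QU53.R1
import Pool.Agent.Lib.QU53.R2
import Pool.Agent.Lib.QU53.HBase

/-!
# Row R3: monic inversion

`P` is the range of an idempotent matrix `e` over `C[X]`.  Two idempotent matrices (of any sizes) are
equivalent (`Mn`) if they are of the form `w w'`, `w' w`.  The `s` with `e(T + s Y) ~ e(T)` form an
ideal; by Horrocks it is not contained in a maximal ideal, so `e(T) ~ e(0)`; `e(0) ~ e(c) ~ 1`.
-/

set_option autoImplicit false

open Polynomial

namespace Pool.Agent.QU53

universe u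

namespace R3

open R2 (sb sc sh sz)

section Mn

variable {m n l : Type*} [Fintype m] [Fintype n] [Fintype l]

/-- Equivalence of idempotent matrices: the ranges are isomorphic. -/
def Mn {R : Type*} [CommRing R] (e : Matrix m m R) (f : Matrix n n R) : Prop :=
  ∃ (w : Matrix m n R) (w' : Matrix n m R), w * w' = e ∧ w' * w = f

variable {R S : Type*} [CommRing R] [CommRing S]

theorem Mn.symm {e : Matrix m m R} {f : Matrix n n R} (h : Mn e f) : Mn f e := by
  obtain ⟨w, w', h1, h2⟩ := h
  exact ⟨w', w, h2, h1⟩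

theorem Mn.trans {e : Matrix m m R} {f : Matrix n n R} {g : Matrix l l R} (he : e * e = e)
    (hg : g * g = g) (h : Mn e f) (h' : Mn f g) : Mn e g := by
  obtain ⟨w, w', h1, h2⟩ := h
  obtain ⟨v, v', h3, h4⟩ := h'
  refine ⟨w * v, v' * w', ?_, ?_⟩
  · calc w * v * (v' * w') = w * (v * v') * w' := by simp only [Matrix.mul_assoc]
      _ = (w * w') * (w * w') := by rw [h3, ← h2]; simp only [Matrix.mul_assoc]
      _ = e := by rw [h1, he]
  · calc v' * w' * (w * v) = v' * (w' * w) * v := by simp only [Matrix.mul_assoc]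
      _ = (v' * v) * (v' * v) := by rw [h2, ← h3]; simp only [Matrix.mul_assoc]
      _ = g := by rw [h4, hg]

theorem Mn.map {e : Matrix m m R} {f : Matrix n n R} (h : Mn e f) (φ : R →+* S) :
    Mn (e.map φ) (f.map φ) := by
  obtain ⟨w, w', h1, h2⟩ := h
  refine ⟨w.map φ, w'.map φ, ?_, ?_⟩
  · rw [← Matrix.map_mul, h1]
  · rw [← Matrix.map_mul, h2]

theorem Mn.refl {e : Matrix m m R} (he : e * e = e) : Mn e e := ⟨e, e, he, he⟩

theorem idem_map {e : Matrix m m R} (he : e * e = e) (φ : R →+* S) :
    e.map φ * e.map φ = e.map φ := by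
  rw [← Matrix.map_mul, he]

end Mn

section Ideal

variable {A : Type*} [CommRing A] {n k : Type*} [Fintype n] [Fintype k]

/-- The ideal of the `s` with `e(T + s X) ~ e(T)` over `A[T][X]`. -/
noncomputable def mnIdeal (e : Matrix n n A[X]) (he : e * e = e) : Ideal A where
  carrier := {s | Mn (e.map (sb s)) (e.map C)}
  zero_mem' := by
    simp only [Set.mem_ofPred_eq, R2.sb_zero]
    exact Mn.refl (idem_map he _)
  add_mem' := by
    intro s t hs ht
    simp only [Set.mem_ofPred_eq] at hs ht ⊢
    have h := ht.map (sh s)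
    rw [Matrix.map_map, Matrix.map_map, ← RingHom.coe_comp, ← RingHom.coe_comp, R2.sh_comp_C,
      R2.sh_comp_sb] at h
    exact Mn.trans (idem_map he _) (idem_map he _) h hs
  smul_mem' := by
    intro a s hs
    simp only [Set.mem_ofPred_eq, smul_eq_mul] at hs ⊢
    have h := hs.map (sc a)
    rw [Matrix.map_map, Matrix.map_map, ← RingHom.coe_comp, ← RingHom.coe_comp, R2.sc_comp_C,
      R2.sc_comp_sb] at h
    exact h

theorem mn_of_one_mem {e : Matrix n n A[X]} {he : e * e = e} (h : (1 : A) ∈ mnIdeal e he) :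
    Mn e (e.map (C.comp (evalRingHom 0))) := by
  have h' := Mn.map (show Mn (e.map (sb (1 : A))) (e.map C) from h) sz
  rw [Matrix.map_map, Matrix.map_map, ← RingHom.coe_comp, ← RingHom.coe_comp, R2.sz_comp_C,
    R2.sz_comp_sb_one] at h'
  simpa using h'

theorem eval2_CX (p : A[X]) : eval₂ (C.comp C : A →+* A[X][X]) (C X) p = C p := by
  induction p using Polynomial.induction_on' with
  | add p q hp hq => rw [eval₂_add, hp, hq, map_add]
  | monomial i a =>
    rw [eval₂_monomial, ← C_mul_X_pow_eq_monomial, map_mul, map_pow]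
    rfl

theorem dvd_sb (t : A) (p : A[X]) : C (C t) ∣ sb t p - C p := by
  have h1 := Polynomial.sub_dvd_eval_sub (C X + C (C t) * X : A[X][X]) (C X)
    (p.map (C.comp C : A →+* A[X][X]))
  rw [add_sub_cancel_left, Polynomial.eval_map, Polynomial.eval_map, eval2_CX] at h1
  exact (dvd_mul_right _ _).trans h1

/-- `a b = t e`, `b a = t 1` (`t ≠ 0` in the domain `A`) imply that `t` is in the ideal. -/
theorem mem_of_factor [IsDomain A] [DecidableEq k] {e : Matrix n n A[X]} (he : e * e = e)
    {a : Matrix n k A[X]} {b : Matrix k n A[X]} {t : A} (ht : t ≠ 0)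
    (hab : a * b = (C t) • e) (hba : b * a = (C t) • (1 : Matrix k k A[X])) :
    t ∈ mnIdeal e he := by
  have hct : (C (C t) : A[X][X]) ≠ 0 := by
    rw [Ne, C_eq_zero, C_eq_zero]; exact ht
  have hdiv : ∀ i j, C (C t) ∣ (a.map (sb t) * b.map C) i j := by
    intro i j
    have h1 : a.map (sb t) * b.map C = (a.map (sb t) - a.map C) * b.map C +
        (C (C t) : A[X][X]) • e.map C := by
      rw [Matrix.sub_mul, ← Matrix.map_mul (f := (C : A[X] →+* A[X][X])), hab]
      have : ((C t) • e).map (C : A[X] →+* A[X][X]) = (C (C t) : A[X][X]) • e.map C := by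
        ext1 i j
        simp
      rw [this, sub_add_cancel]
    rw [h1, Matrix.add_apply, Matrix.mul_apply, Matrix.smul_apply, smul_eq_mul]
    refine dvd_add (Finset.dvd_sum fun q _ => ?_) (dvd_mul_right _ _)
    exact (dvd_sb t (a i q)).mul_right _
  have hdiv' : ∀ i j, C (C t) ∣ (a.map C * b.map (sb t)) i j := by
    intro i j
    have h1 : a.map C * b.map (sb t) = a.map C * (b.map (sb t) - b.map C) +
        (C (C t) : A[X][X]) • e.map C := by
      rw [Matrix.mul_sub, ← Matrix.map_mul (f := (C : A[X] →+* A[X][X])), hab]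
      have : ((C t) • e).map (C : A[X] →+* A[X][X]) = (C (C t) : A[X][X]) • e.map C := by
        ext1 i j
        simp
      rw [this, sub_add_cancel]
    rw [h1, Matrix.add_apply, Matrix.mul_apply, Matrix.smul_apply, smul_eq_mul]
    refine dvd_add (Finset.dvd_sum fun q _ => ?_) (dvd_mul_right _ _)
    exact (dvd_sb t (b q j)).mul_left _
  choose w hw using hdiv
  choose w' hw' using hdiv'
  have ew : (C (C t) : A[X][X]) • (Matrix.of w) = a.map (sb t) * b.map C := by
    ext1 i j
    rw [Matrix.smul_apply, smul_eq_mul, Matrix.of_apply, hw]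
  have ew' : (C (C t) : A[X][X]) • (Matrix.of w') = a.map C * b.map (sb t) := by
    ext1 i j
    rw [Matrix.smul_apply, smul_eq_mul, Matrix.of_apply, hw']
  have hinj : ∀ {M M' : Matrix n n A[X][X]}, (C (C t) * C (C t) : A[X][X]) • M =
      (C (C t) * C (C t) : A[X][X]) • M' → M = M' := by
    intro M M' h
    ext1 i j
    have := congrFun (congrFun h i) j
    rw [Matrix.smul_apply, Matrix.smul_apply, smul_eq_mul, smul_eq_mul] at this
    exact mul_left_cancel₀ (mul_ne_zero hct hct) this
  have hbaC : b.map C * a.map C = (C (C t) : A[X][X]) • (1 : Matrix k k A[X][X]) := by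
    rw [← Matrix.map_mul (f := (C : A[X] →+* A[X][X])), hba]
    ext1 i j
    by_cases hij : i = j <;> simp [hij]
  have hbas : b.map (sb t) * a.map (sb t) = (C (C t) : A[X][X]) • (1 : Matrix k k A[X][X]) := by
    rw [← Matrix.map_mul, hba]
    ext1 i j
    by_cases hij : i = j <;> simp [hij, R2.sb_C]
  have habC : a.map C * b.map C = (C (C t) : A[X][X]) • e.map C := by
    rw [← Matrix.map_mul (f := (C : A[X] →+* A[X][X])), hab]
    ext1 i j
    simp
  have habs : a.map (sb t) * b.map (sb t) = (C (C t) : A[X][X]) • e.map (sb t) := by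
    rw [← Matrix.map_mul, hab]
    ext1 i j
    simp [R2.sb_C]
  refine ⟨Matrix.of w, Matrix.of w', hinj ?_, hinj ?_⟩
  · rw [mul_smul, ← Matrix.smul_mul, ← Matrix.mul_smul, ew, ew', Matrix.mul_assoc,
      ← Matrix.mul_assoc (b.map C), hbaC, Matrix.smul_mul, Matrix.one_mul, Matrix.mul_smul, habs,
      mul_smul]
  · rw [mul_smul, ← Matrix.smul_mul, ← Matrix.mul_smul, ew, ew', Matrix.mul_assoc,
      ← Matrix.mul_assoc (b.map (sb t)), hbas, Matrix.smul_mul, Matrix.one_mul, Matrix.mul_smul,
      habC, mul_smul]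

end Ideal

section Local

variable {N k : ℕ}

/-- Denominators of a matrix. -/
theorem den_rect {A : Type*} [CommRing A] (M : Submonoid A) (B : Type*) [CommRing B] [Algebra A B]
    [IsLocalization M B] {m n : Type*} [Fintype m] [Fintype n] (w : Matrix m n B[X]) :
    ∃ s ∈ M, ∃ W : Matrix m n A[X], W.map (mapRingHom (algebraMap A B)) =
      (C (algebraMap A B s) : B[X]) • w := by
  classical
  choose s hs P hP using fun ik : m × n => R2.den_one M B (w ik.1 ik.2)
  refine ⟨∏ ik, s ik, Submonoid.prod_mem _ fun ik _ => hs ik,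
    Matrix.of fun i j => C (∏ ik ∈ Finset.univ.erase (i, j), s ik) * P (i, j), ?_⟩
  ext1 i j
  rw [Matrix.map_apply, Matrix.of_apply, Matrix.smul_apply, smul_eq_mul, map_mul, coe_mapRingHom,
    hP, map_C, ← Finset.mul_prod_erase Finset.univ s (Finset.mem_univ (i, j)), map_mul, map_mul]
  ring

/-- The local step: Horrocks. -/
theorem exists_notMem {C' : Type u} [CommRing C'] [IsDomain C'] (e : Matrix (Fin N) (Fin N) C'[X])
    (he : e * e = e) (x : Matrix (Fin N) (Fin k) C'[X]) (y : Matrix (Fin k) (Fin N) C'[X])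
    (H : C'[X]) (hH : H.Monic) (hxy : x * y = H • e) (hyx : y * x = H • (1 : Matrix _ _ C'[X]))
    (q : Ideal C') [hq : q.IsPrime] : ∃ t, t ∉ q ∧ t ∈ mnIdeal e he := by
  classical
  let B := Localization.AtPrime q
  have hM : q.primeCompl ≤ nonZeroDivisors C' := q.primeCompl_le_nonZeroDivisors
  have hdom : IsDomain B := IsLocalization.isDomain_localization hM
  have hinj0 : Function.Injective (algebraMap C' B) := IsLocalization.injective B hM
  let φ : C'[X] →+* B[X] := mapRingHom (algebraMap C' B)
  have hinj : Function.Injective φ := Polynomial.map_injective _ hinj0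
  set e' := e.map φ with he'd
  set x' := x.map φ with hx'd
  set y' := y.map φ with hy'd
  set H' := φ H with hH'd
  have hH' : H'.Monic := hH.map _
  have he' : e' * e' = e' := idem_map he φ
  have hxy' : x' * y' = H' • e' := by
    rw [hx'd, hy'd, ← Matrix.map_mul, hxy]
    ext1 i j
    simp [he'd, hH'd]
  have hyx' : y' * x' = H' • (1 : Matrix (Fin k) (Fin k) B[X]) := by
    rw [hx'd, hy'd, ← Matrix.map_mul, hyx]
    ext1 i j
    by_cases hij : i = j <;> simp [hij, hH'd]
  have hex : e' * x' = x' := by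
    have h1 : H' • (e' * x') = H' • x' := by
      rw [← Matrix.smul_mul, ← hxy', Matrix.mul_assoc, hyx', Matrix.mul_smul, Matrix.mul_one]
    ext1 i j
    have h2 := congrFun (congrFun h1 i) j
    rw [Matrix.smul_apply, Matrix.smul_apply, smul_eq_mul, smul_eq_mul] at h2
    exact mul_left_cancel₀ hH'.ne_zero h2
  let E : (Fin N → B[X]) →ₗ[B[X]] (Fin N → B[X]) := Matrix.toLin' e'
  let P := LinearMap.range E
  have hEE : ∀ v, E (E v) = E v := by
    intro v
    show Matrix.toLin' e' (Matrix.toLin' e' v) = Matrix.toLin' e' v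
    rw [Matrix.toLin'_apply, Matrix.toLin'_apply, Matrix.mulVec_mulVec, he']
  let pr : (Fin N → B[X]) →ₗ[B[X]] P := E.rangeRestrict
  have hpr : ∀ v : P, pr v = v := by
    rintro ⟨_, v, rfl⟩
    exact Subtype.ext (hEE v)
  have hfin : Module.Finite B[X] P := Module.Finite.of_surjective pr fun v => ⟨v, hpr v⟩
  have hproj : Module.Projective B[X] P :=
    Module.Projective.of_split P.subtype pr (LinearMap.ext hpr)
  have hmem : ∀ c : Fin k → B[X], x'.mulVec c ∈ P := fun c =>
    ⟨x'.mulVec c, by
      show Matrix.toLin' e' (x'.mulVec c) = x'.mulVec c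
      rw [Matrix.toLin'_apply, Matrix.mulVec_mulVec, hex]⟩
  let xL : (Fin k → B[X]) →ₗ[B[X]] P :=
    LinearMap.codRestrict P (Matrix.toLin' x') fun c => hmem c
  have hxL : ∀ c, ((xL c : P) : Fin N → B[X]) = x'.mulVec c := fun c => rfl
  have hsum : ∀ c : Fin k → B[X], ∑ j, c j • xL (Pi.single j 1) = xL c := by
    intro c
    conv_rhs => rw [pi_eq_sum_univ' c, map_sum]
    exact Finset.sum_congr rfl fun j _ => (map_smul _ _ _).symm
  have hb : HB B[X] P k H' := by
    refine ⟨fun j => xL (Pi.single j 1), ?_, ?_⟩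
    · refine Fintype.linearIndependent_iff.2 fun c hc i => ?_
      rw [hsum] at hc
      have h1 : y'.mulVec (x'.mulVec c) = 0 := by
        rw [← hxL, hc]; exact Matrix.mulVec_zero _
      rw [Matrix.mulVec_mulVec, hyx', Matrix.smul_mulVec, Matrix.one_mulVec] at h1
      have h2 := congrFun h1 i
      rw [Pi.smul_apply, smul_eq_mul, Pi.zero_apply] at h2
      exact (mul_eq_zero.1 h2).resolve_left hH'.ne_zero
    · rintro ⟨_, v, rfl⟩
      have h1 : H' • (⟨E v, ⟨v, rfl⟩⟩ : P) = xL (y'.mulVec v) := by
        refine Subtype.ext ?_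
        rw [hxL, Matrix.mulVec_mulVec, hxy', Matrix.smul_mulVec]
        rfl
      rw [h1, ← hsum]
      exact Submodule.sum_mem _ fun j _ => Submodule.smul_mem _ _ (Submodule.subset_span ⟨j, rfl⟩)
  have hfree : Module.Free B[X] P := horrocks k P H' hH' hb
  have hrank : Module.finrank B[X] P = k := by
    have hb1 : HB B[X] P (Module.finrank B[X] P) 1 :=
      ⟨Module.finBasis B[X] P, (Module.finBasis B[X] P).linearIndependent, fun v => by
        rw [(Module.finBasis B[X] P).span_eq]; trivial⟩
    exact HB_unique one_ne_zero hH'.ne_zero hb1 hb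
  let β : P ≃ₗ[B[X]] (Fin k → B[X]) :=
    ((Module.finBasis B[X] P).reindex (finCongr hrank)).equivFun
  let a := LinearMap.toMatrix' (P.subtype.comp β.symm.toLinearMap)
  let b := LinearMap.toMatrix' (β.toLinearMap.comp pr)
  have hab : a * b = e' := by
    show LinearMap.toMatrix' _ * LinearMap.toMatrix' _ = _
    rw [← LinearMap.toMatrix'_comp]
    have : (P.subtype.comp β.symm.toLinearMap).comp (β.toLinearMap.comp pr) = E := by
      refine LinearMap.ext fun v => ?_
      show ((β.symm (β (pr v)) : P) : Fin N → B[X]) = E v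
      rw [β.symm_apply_apply]
      rfl
    rw [this]
    exact LinearMap.toMatrix'_toLin' e'
  have hba : b * a = 1 := by
    show LinearMap.toMatrix' _ * LinearMap.toMatrix' _ = _
    rw [← LinearMap.toMatrix'_comp]
    have : (β.toLinearMap.comp pr).comp (P.subtype.comp β.symm.toLinearMap) = LinearMap.id := by
      refine LinearMap.ext fun v => ?_
      show β (pr ((β.symm v : P) : Fin N → B[X])) = v
      rw [hpr, β.apply_symm_apply]
    rw [this, LinearMap.toMatrix'_id]
  obtain ⟨s, hs, a0, ha0⟩ := den_rect q.primeCompl B a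
  obtain ⟨s', hs', b0, hb0⟩ := den_rect q.primeCompl B b
  have hst : s * s' ∈ q.primeCompl := q.primeCompl.mul_mem hs hs'
  refine ⟨s * s', hst, mem_of_factor (a := a0) (b := b0) he (nonZeroDivisors.ne_zero (hM hst))
    ?_ ?_⟩
  · refine Matrix.map_injective hinj ?_
    show (a0 * b0).map φ = _
    rw [Matrix.map_mul, ha0, hb0, Matrix.smul_mul, Matrix.mul_smul, hab, smul_smul]
    ext1 i j
    simp [he'd, φ]
  · refine Matrix.map_injective hinj ?_
    show (b0 * a0).map φ = _
    rw [Matrix.map_mul, ha0, hb0, Matrix.smul_mul, Matrix.mul_smul, hba, smul_smul]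
    ext1 i j
    by_cases hij : i = j <;> simp [hij, φ, mul_comm]

end Local

end R3

open R3 in
/-- R3, monic inversion. -/
theorem monic_inversion {C : Type u} [CommRing C] [IsDomain C] (k : ℕ) (P : Type u)
    [AddCommGroup P] [Module C[X] P] [Module.Finite C[X] P] [Module.Projective C[X] P]
    (H : C[X]) (hH : H.Monic) (hb : HB C[X] P k H) (c : C) (hc : IsUnit (H.eval c)) :
    Module.Free C[X] P := by
  classical
  obtain ⟨b, hli, hsp⟩ := hb
  obtain ⟨a, ha1, ha2⟩ := R1.exists_coords hli hsp
  obtain ⟨N, f, hf⟩ := Module.Finite.exists_fin' C[X] P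
  obtain ⟨g, hg⟩ := Module.projective_lifting_property f LinearMap.id hf
  have hfg : ∀ p, f (g p) = p := fun p => LinearMap.congr_fun hg p
  let xb : (Fin k → C[X]) →ₗ[C[X]] P := Fintype.linearCombination C[X] b
  have hxb : ∀ c, xb c = ∑ i, c i • b i := fun c => Fintype.linearCombination_apply _ _ _
  let e := LinearMap.toMatrix' (g.comp f)
  let x := LinearMap.toMatrix' (g.comp xb)
  let y := LinearMap.toMatrix' (a.comp f)
  have he : e * e = e := by
    show LinearMap.toMatrix' _ * LinearMap.toMatrix' _ = LinearMap.toMatrix' _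
    rw [← LinearMap.toMatrix'_comp]
    congr 1
    refine LinearMap.ext fun v => ?_
    show g (f (g (f v))) = g (f v)
    rw [hfg]
  have hxy : x * y = H • e := by
    show LinearMap.toMatrix' _ * LinearMap.toMatrix' _ = H • LinearMap.toMatrix' _
    rw [← LinearMap.toMatrix'_comp, ← map_smul]
    congr 1
    refine LinearMap.ext fun v => ?_
    show g (xb (a (f v))) = H • g (f v)
    rw [hxb, ← ha1, map_smul]
  have hyx : y * x = H • (1 : Matrix (Fin k) (Fin k) C[X]) := by
    show LinearMap.toMatrix' _ * LinearMap.toMatrix' _ = _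
    rw [← LinearMap.toMatrix'_comp, ← LinearMap.toMatrix'_id, ← map_smul]
    congr 1
    refine LinearMap.ext fun v => ?_
    show a (f (g (xb v))) = H • v
    rw [hfg, hxb, ha2]
  have htop : mnIdeal e he = ⊤ := by
    by_contra hne
    obtain ⟨q, hq, hle⟩ := Ideal.exists_le_maximal _ hne
    have := hq.isPrime
    obtain ⟨t, ht, ht'⟩ := exists_notMem e he x y H hH hxy hyx q
    exact ht (hle ht')
  have h1 : Mn e (e.map (Polynomial.C.comp (evalRingHom 0))) :=
    mn_of_one_mem (he := he) (htop ▸ Submodule.mem_top)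
  have h2 : Mn (e.map (evalRingHom c)) (e.map (evalRingHom 0)) := by
    have h := h1.map (evalRingHom c)
    rw [Matrix.map_map] at h
    have e1 : (evalRingHom c : C[X] →+* C) ∘ (Polynomial.C.comp (evalRingHom 0) : C[X] →+* C[X]) =
        (evalRingHom 0 : C[X] →+* C) := by
      funext p
      simp
    rwa [e1] at h
  have h3 : Mn (e.map (evalRingHom c)) (1 : Matrix (Fin k) (Fin k) C) := by
    obtain ⟨u, hu⟩ := hc
    have hu' : (↑u⁻¹ : C) * H.eval c = 1 := by rw [← hu]; exact u.inv_mul
    refine ⟨x.map (evalRingHom c), (↑u⁻¹ : C) • y.map (evalRingHom c), ?_, ?_⟩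
    · rw [Matrix.mul_smul, ← Matrix.map_mul, hxy]
      ext1 i j
      simp [← mul_assoc, hu']
    · rw [Matrix.smul_mul, ← Matrix.map_mul, hyx]
      ext1 i j
      by_cases hij : i = j
      · subst hij
        simp [hu']
      · simp [hij]
  have h4 : Mn (e.map (evalRingHom 0)) (1 : Matrix (Fin k) (Fin k) C) :=
    h2.symm.trans (idem_map he _) (by rw [Matrix.one_mul]) h3
  have h5 : Mn e (1 : Matrix (Fin k) (Fin k) C[X]) := by
    have h := h4.map Polynomial.C
    rw [Matrix.map_map, ← RingHom.coe_comp, Matrix.map_one _ (map_zero _) (map_one _)] at h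
    exact h1.trans he (by rw [Matrix.one_mul]) h
  obtain ⟨w, w', hw, hw'⟩ := h5
  have hge : ∀ v, (Matrix.toLin' w) ((Matrix.toLin' w') v) = g (f v) := by
    intro v
    rw [← LinearMap.comp_apply, ← Matrix.toLin'_mul, hw]
    show Matrix.toLin' (LinearMap.toMatrix' (g.comp f)) v = g (f v)
    rw [Matrix.toLin'_toMatrix']
    rfl
  have hone : ∀ v, (Matrix.toLin' w') ((Matrix.toLin' w) v) = v := by
    intro v
    rw [← LinearMap.comp_apply, ← Matrix.toLin'_mul, hw', Matrix.toLin'_one]
    rfl
  refine Module.Free.of_equiv (M := Fin k → C[X]) (LinearEquiv.ofLinearMap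
    (f.comp (Matrix.toLin' w)) ((Matrix.toLin' w').comp g) ?_ ?_)
  · refine LinearMap.ext fun p => ?_
    show f (Matrix.toLin' w (Matrix.toLin' w' (g p))) = p
    rw [hge, hfg, hfg]
  · refine LinearMap.ext fun v => ?_
    show Matrix.toLin' w' (g (f (Matrix.toLin' w v))) = v
    rw [← hge, hone, hone]

end Pool.Agent.QU53
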