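import Mathlib

/-!
# Triangular changes of coordinates in power series rings over a local ring
-/

set_option autoImplicit false

namespace Pool.Agent.QU53

open IsLocalRing

universe u

/-- The weight of an exponent. -/
def wt7 {n : ℕ} (N : Fin n → ℕ) (d : Fin (n + 1) → ℕ) : ℕ := d 0 + ∑ j, N j * d j.succ

/-- A set of exponents has a unique element of least weight for suitable weights. -/
theorem exists_wt7 (n : ℕ) (T : Set (Fin (n + 1) → ℕ)) (hT : T.Nonempty) :
    ∃ N : Fin n → ℕ, (∀ j, 0 < N j) ∧ ∃ d₀ ∈ T, ∀ d ∈ T, d ≠ d₀ → wt7 N d₀ < wt7 N d := by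
  induction n with
  | zero =>
    obtain ⟨d₀, hd₀, hmin⟩ := WellFounded.has_min
      (InvImage.wf (fun d : Fin 1 → ℕ => d 0) (wellFounded_lt (α := ℕ))) T hT
    refine ⟨fun _ => 1, fun _ => Nat.one_pos, d₀, hd₀, fun d hd hne => ?_⟩
    have h1 : ¬ d 0 < d₀ 0 := hmin d hd
    have h2 : d 0 ≠ d₀ 0 := by
      intro h
      refine hne (funext fun i => ?_)
      rw [Fin.eq_zero i]
      exact h
    simp only [wt7, Finset.univ_eq_empty, Finset.sum_empty, add_zero]
    omega
  | succ n ih =>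
    obtain ⟨e, he, hmin⟩ := WellFounded.has_min
      (InvImage.wf (fun d : Fin (n + 2) → ℕ => d (Fin.last (n + 1))) (wellFounded_lt (α := ℕ))) T hT
    let a : ℕ := e (Fin.last (n + 1))
    let T' : Set (Fin (n + 1) → ℕ) := {d | ∃ c ∈ T, c (Fin.last (n + 1)) = a ∧
      d = fun i => c i.castSucc}
    obtain ⟨N', hN', d', ⟨c₀, hc₀, hc₀a, hd'⟩, hd'min⟩ := ih T' ⟨_, e, he, rfl, rfl⟩
    have hsp : ∀ (M : ℕ) (c : Fin (n + 2) → ℕ), wt7 (Fin.snoc (α := fun _ => ℕ) N' M) c =
        wt7 N' (fun i => c i.castSucc) + M * c (Fin.last (n + 1)) := by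
      intro M c
      simp only [wt7, Fin.sum_univ_castSucc, Fin.snoc_castSucc, Fin.snoc_last, Fin.succ_last,
        Fin.castSucc_zero, Fin.succ_castSucc]
      exact (add_assoc _ _ _).symm
    refine ⟨Fin.snoc (α := fun _ => ℕ) N' (1 + wt7 N' d'), fun j => ?_, c₀, hc₀,
      fun c hc hne => ?_⟩
    · refine Fin.lastCases ?_ (fun i => ?_) j
      · rw [Fin.snoc_last]
        omega
      · rw [Fin.snoc_castSucc]
        exact hN' i
    · rw [hsp, hsp, hc₀a, ← hd']
      have h1 : ¬ c (Fin.last (n + 1)) < a := hmin c hc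
      rcases Nat.lt_or_ge a (c (Fin.last (n + 1))) with h2 | h2
      · have h3 : (1 + wt7 N' d') * (a + 1) ≤ (1 + wt7 N' d') * c (Fin.last (n + 1)) :=
          Nat.mul_le_mul_left _ h2
        rw [Nat.mul_add, Nat.mul_one] at h3
        omega
      · have h3 : c (Fin.last (n + 1)) = a := by omega
        rw [h3]
        refine Nat.add_lt_add_right (hd'min _ ⟨c, hc, h3, rfl⟩ fun h4 => hne ?_) _
        funext i
        refine Fin.lastCases ?_ (fun i => ?_) i
        · rw [h3, hc₀a]
        · have h5 := congrFun (h4.trans hd') i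
          exact h5

/-- The images of the variables. -/
noncomputable def tau7 (S : Type u) [CommRing S] {n : ℕ} (lam : Fin n → ℤ) (N : Fin n → ℕ) :
    Fin (n + 1) → MvPowerSeries (Fin (n + 1)) S :=
  Fin.cons (MvPowerSeries.X 0) fun j =>
    MvPowerSeries.X j.succ + (lam j : MvPowerSeries (Fin (n + 1)) S) * MvPowerSeries.X 0 ^ N j

section

variable (S : Type u) [CommRing S] {n : ℕ} (lam : Fin n → ℤ) (N : Fin n → ℕ)

theorem tau7_hasSubst (hN : ∀ j, 0 < N j) : MvPowerSeries.HasSubst (tau7 S lam N) := by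
  refine MvPowerSeries.hasSubst_of_constantCoeff_zero fun s => ?_
  refine Fin.cases ?_ (fun j => ?_) s
  · simp [tau7]
  · simp [tau7, (hN j).ne']

theorem tau7_comp (hN : ∀ j, 0 < N j) (lam' : Fin n → ℤ)
    (h : ∀ j, lam' j = -lam j) (f : MvPowerSeries (Fin (n + 1)) S) :
    MvPowerSeries.substAlgHom (R := S) (tau7_hasSubst S lam' N hN)
      (MvPowerSeries.substAlgHom (R := S) (tau7_hasSubst S lam N hN) f) = f := by
  rw [MvPowerSeries.substAlgHom_apply, MvPowerSeries.substAlgHom_apply,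
    MvPowerSeries.subst_comp_subst_apply (tau7_hasSubst S lam N hN) (tau7_hasSubst S lam' N hN)]
  have h1 : (fun s => MvPowerSeries.subst (tau7 S lam' N) (tau7 S lam N s)) =
      (MvPowerSeries.X : Fin (n + 1) → MvPowerSeries (Fin (n + 1)) S) := by
    funext s
    rw [← MvPowerSeries.substAlgHom_apply (R := S) (tau7_hasSubst S lam' N hN)]
    refine Fin.cases ?_ (fun j => ?_) s
    · show MvPowerSeries.substAlgHom (R := S) (tau7_hasSubst S lam' N hN)
        (MvPowerSeries.X 0) = _
      rw [MvPowerSeries.substAlgHom_X]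
      rfl
    · show MvPowerSeries.substAlgHom (R := S) (tau7_hasSubst S lam' N hN)
        (MvPowerSeries.X j.succ +
        (lam j : MvPowerSeries (Fin (n + 1)) S) * MvPowerSeries.X 0 ^ N j) = _
      rw [map_add, map_mul, map_pow, map_intCast, MvPowerSeries.substAlgHom_X,
        MvPowerSeries.substAlgHom_X]
      show MvPowerSeries.X j.succ + (lam' j : MvPowerSeries (Fin (n + 1)) S) *
        MvPowerSeries.X 0 ^ N j +
        (lam j : MvPowerSeries (Fin (n + 1)) S) * MvPowerSeries.X 0 ^ N j = _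
      rw [h j]
      push_cast
      ring
  rw [h1, MvPowerSeries.subst_self]
  rfl

/-- The restriction to the first coordinate axis. -/
noncomputable def eps7 : MvPowerSeries (Fin (n + 1)) S →+* PowerSeries S :=
  (PowerSeries.map (MvPowerSeries.constantCoeff (σ := Fin n) (R := S))).comp
    (MvPowerSeries.finSuccEquiv S n).toRingEquiv.toRingHom

theorem eps7_apply (f : MvPowerSeries (Fin (n + 1)) S) :
    eps7 S f = PowerSeries.map (MvPowerSeries.constantCoeff (σ := Fin n) (R := S))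
      (MvPowerSeries.finSuccEquiv S n f) := rfl

theorem coeff_eps7 (f : MvPowerSeries (Fin (n + 1)) S) (i : ℕ) :
    PowerSeries.coeff i (eps7 S f) = MvPowerSeries.coeff ((0 : Fin n →₀ ℕ).cons i) f := by
  rw [← MvPowerSeries.coeff_coeff_finSuccEquiv, eps7_apply, PowerSeries.coeff_map,
    MvPowerSeries.coeff_zero_eq_constantCoeff_apply]

theorem eps7_tau_zero : eps7 S (tau7 S lam N 0) = PowerSeries.X := by
  show eps7 S (MvPowerSeries.X 0) = _
  rw [eps7_apply, MvPowerSeries.finSuccEquiv_X_zero, PowerSeries.map_X]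

theorem eps7_tau_succ (j : Fin n) : eps7 S (tau7 S (fun _ => 1) N j.succ) =
    PowerSeries.X ^ N j := by
  show eps7 S (MvPowerSeries.X j.succ +
    ((1 : ℤ) : MvPowerSeries (Fin (n + 1)) S) * MvPowerSeries.X 0 ^ N j) = _
  rw [map_add, map_mul, map_pow, Int.cast_one, map_one, one_mul, eps7_apply, eps7_apply,
    MvPowerSeries.finSuccEquiv_X_zero,
    MvPowerSeries.finSuccEquiv_X_succ, PowerSeries.map_X,
    PowerSeries.map_C, MvPowerSeries.constantCoeff_X, map_zero, zero_add]

theorem eps7_prod (d : Fin (n + 1) →₀ ℕ) :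
    eps7 S (d.prod fun s e => tau7 S (fun _ => 1) N s ^ e) = PowerSeries.X ^ wt7 N d := by
  rw [Finsupp.prod_fintype _ _ (fun i => pow_zero _), map_prod, Fin.prod_univ_succ]
  simp_rw [map_pow, eps7_tau_zero, eps7_tau_succ, ← pow_mul]
  rw [Finset.prod_pow_eq_pow_sum, ← pow_add]
  rfl

theorem coeff_tau7 (hN : ∀ j, 0 < N j) (f : MvPowerSeries (Fin (n + 1)) S) (i : ℕ) :
    PowerSeries.coeff i (eps7 S (MvPowerSeries.subst (tau7 S (fun _ => 1) N) f)) =
      ∑ᶠ d : Fin (n + 1) →₀ ℕ, MvPowerSeries.coeff d f * (if i = wt7 N d then 1 else 0) := by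
  rw [coeff_eps7, MvPowerSeries.coeff_subst (tau7_hasSubst S (fun _ => 1) N hN)]
  refine finsum_congr fun d => ?_
  rw [← coeff_eps7, eps7_prod, PowerSeries.coeff_X_pow, smul_eq_mul]

theorem finite_tau7 (hN : ∀ j, 0 < N j) (f : MvPowerSeries (Fin (n + 1)) S) (i : ℕ) :
    (fun d : Fin (n + 1) →₀ ℕ =>
      MvPowerSeries.coeff d f * (if i = wt7 N d then (1 : S) else 0)).HasFiniteSupport := by
  have h1 := MvPowerSeries.coeff_subst_finite (tau7_hasSubst S (fun _ => 1) N hN) f
    ((0 : Fin n →₀ ℕ).cons i)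
  refine Eq.mp ?_ h1
  congr 1
  funext d
  rw [← coeff_eps7, eps7_prod, PowerSeries.coeff_X_pow, smul_eq_mul]

end

/-- R7, triangular substitution. -/
theorem exists_auto {S : Type u} [CommRing S] [IsLocalRing S] (n : ℕ)
    (f : MvPowerSeries (Fin (n + 1)) S) (hf : MvPowerSeries.map (residue S) f ≠ 0) :
    ∃ τ : MvPowerSeries (Fin (n + 1)) S ≃+* MvPowerSeries (Fin (n + 1)) S,
      (∀ s : S, τ (MvPowerSeries.C s) = MvPowerSeries.C s) ∧
      PowerSeries.map (residue (MvPowerSeries (Fin n) S))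
        (MvPowerSeries.finSuccEquiv S n (τ f)) ≠ 0 := by
  obtain ⟨e, he⟩ : ∃ e, residue S (MvPowerSeries.coeff e f) ≠ 0 := by
    by_contra hcon
    push Not at hcon
    exact hf (MvPowerSeries.ext fun e => by rw [MvPowerSeries.coeff_map, hcon e, map_zero])
  obtain ⟨N, hN, d₀, ⟨e₀, he₀, hed⟩, hmin⟩ := exists_wt7 n
    {d | ∃ e : Fin (n + 1) →₀ ℕ, residue S (MvPowerSeries.coeff e f) ≠ 0 ∧ d = e} ⟨_, e, he, rfl⟩
  subst hed
  refine ⟨RingEquiv.ofRingHom
    (MvPowerSeries.substAlgHom (R := S) (tau7_hasSubst S (fun _ => 1) N hN)).toRingHom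
    (MvPowerSeries.substAlgHom (R := S) (tau7_hasSubst S (fun _ => -1) N hN)).toRingHom
    ?_ ?_, ?_, ?_⟩
  · refine RingHom.ext fun f => ?_
    exact tau7_comp S (fun _ => -1) N hN (fun _ => 1) (fun j => (neg_neg _).symm) f
  · refine RingHom.ext fun f => ?_
    exact tau7_comp S (fun _ => 1) N hN (fun _ => -1) (fun j => rfl) f
  · intro a
    exact (MvPowerSeries.substAlgHom (R := S) (tau7_hasSubst S (fun _ => 1) N hN)).commutes a
  · intro h0
    have h1 : residue (MvPowerSeries (Fin n) S) (PowerSeries.coeff (wt7 N e₀)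
        (MvPowerSeries.finSuccEquiv S n (MvPowerSeries.substAlgHom (R := S)
          (tau7_hasSubst S (fun _ => 1) N hN) f))) = 0 := by
      have h2 := congrArg (PowerSeries.coeff (wt7 N e₀)) h0
      rw [PowerSeries.coeff_map, map_zero] at h2
      exact h2
    rw [residue_eq_zero_iff, mem_maximalIdeal, mem_nonunits_iff,
      MvPowerSeries.isUnit_iff_constantCoeff, ← mem_nonunits_iff, ← mem_maximalIdeal,
      ← residue_eq_zero_iff, MvPowerSeries.substAlgHom_apply] at h1
    have h3 : PowerSeries.coeff (wt7 N e₀)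
        (eps7 S (MvPowerSeries.subst (tau7 S (fun _ => 1) N) f)) =
        MvPowerSeries.constantCoeff (PowerSeries.coeff (wt7 N e₀)
          (MvPowerSeries.finSuccEquiv S n
            (MvPowerSeries.subst (tau7 S (fun _ => 1) N) f))) := by
      rw [eps7_apply, PowerSeries.coeff_map]
    rw [← h3, coeff_tau7 S N hN] at h1
    have h4 := AddMonoidHom.map_finsum (residue S).toAddMonoidHom
      (finite_tau7 S N hN f (wt7 N e₀))
    have h5 : (residue S) (∑ᶠ d : Fin (n + 1) →₀ ℕ,
        MvPowerSeries.coeff d f * (if wt7 N e₀ = wt7 N d then (1 : S) else 0)) =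
        ∑ᶠ d : Fin (n + 1) →₀ ℕ, residue S
          (MvPowerSeries.coeff d f * (if wt7 N e₀ = wt7 N d then (1 : S) else 0)) := h4
    rw [h5, finsum_eq_single _ e₀, if_pos rfl, mul_one] at h1
    · exact he₀ h1
    · intro d hd
      by_cases h6 : wt7 N e₀ = wt7 N d
      · rw [if_pos h6, mul_one]
        by_contra h7
        have h8 := hmin d ⟨d, h7, rfl⟩ fun h => hd (DFunLike.coe_injective h)
        omega
      · rw [if_neg h6, mul_zero, map_zero]

end Pool.Agent.QU53
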