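import Mathlib

/-!
# Power series rings over complete local rings are complete
-/

set_option autoImplicit false

namespace Pool.Agent.QU53

open IsLocalRing

universe u

section one

variable {A : Type u} [CommRing A]

/-- Power series whose `i`-th coefficient lies in `I ^ (n - i)`. -/
def V8 (I : Ideal A) (n : ℕ) : Ideal (PowerSeries A) where
  carrier := {f | ∀ i, PowerSeries.coeff i f ∈ I ^ (n - i)}
  add_mem' hf hg i := by
    rw [map_add]
    exact add_mem (hf i) (hg i)
  zero_mem' i := by
    rw [map_zero]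
    exact zero_mem _
  smul_mem' g f hf i := by
    rw [smul_eq_mul, PowerSeries.coeff_mul]
    refine Ideal.sum_mem _ fun p hp => Ideal.mul_mem_left _ _ ?_
    have h2 : p.1 + p.2 = i := Finset.HasAntidiagonal.mem_antidiagonal.1 hp
    exact Ideal.pow_le_pow_right (Nat.sub_le_sub_left (by omega) n) (hf p.2)

theorem mem_V8 {I : Ideal A} {n : ℕ} {f : PowerSeries A} :
    f ∈ V8 I n ↔ ∀ i, PowerSeries.coeff i f ∈ I ^ (n - i) := Iff.rfl

theorem V8_mul (I : Ideal A) (a b : ℕ) : V8 I a * V8 I b ≤ V8 I (a + b) := by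
  rw [Ideal.mul_le]
  intro f hf g hg i
  rw [PowerSeries.coeff_mul]
  refine Ideal.sum_mem _ fun p hp => ?_
  have h1 := Ideal.mul_mem_mul (hf p.1) (hg p.2)
  rw [← pow_add] at h1
  refine Ideal.pow_le_pow_right ?_ h1
  have h2 : p.1 + p.2 = i := Finset.HasAntidiagonal.mem_antidiagonal.1 hp
  omega

/-- The ideal generated by `I` and the variable. -/
noncomputable def J8 (I : Ideal A) : Ideal (PowerSeries A) :=
  I.map PowerSeries.C ⊔ Ideal.span {PowerSeries.X}

theorem J8_le (I : Ideal A) : J8 I ≤ V8 I 1 := by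
  refine sup_le (Ideal.map_le_iff_le_comap.2 fun a ha i => ?_)
    ((Ideal.span_singleton_le_iff_mem _).2 fun i => ?_)
  · rw [PowerSeries.coeff_C]
    split_ifs with h
    · subst h
      rwa [Nat.sub_zero, pow_one]
    · exact zero_mem _
  · rw [PowerSeries.coeff_X]
    split_ifs with h
    · subst h
      rw [Nat.sub_self, pow_zero, Ideal.one_eq_top]
      exact Submodule.mem_top
    · exact zero_mem _

theorem J8_pow (I : Ideal A) (n : ℕ) : J8 I ^ n = V8 I n := by
  refine le_antisymm ?_ fun f hf => ?_
  · induction n with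
    | zero =>
      intro f _ i
      rw [Nat.zero_sub, pow_zero, Ideal.one_eq_top]
      exact Submodule.mem_top
    | succ n ih =>
      rw [pow_succ]
      exact (Ideal.mul_mono ih (J8_le I)).trans (V8_mul I n 1)
  · have hX : (PowerSeries.X : PowerSeries A) ∈ J8 I :=
      Ideal.mem_sup_right (Ideal.mem_span_singleton_self _)
    rw [PowerSeries.eq_X_pow_mul_shift_add_trunc n f]
    refine add_mem (Ideal.mul_mem_right _ _ (Ideal.pow_mem_pow hX n)) ?_
    rw [Polynomial.as_sum_support_C_mul_X_pow (f.trunc n),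
      ← Polynomial.coeToPowerSeries.ringHom_apply, map_sum]
    refine Ideal.sum_mem _ fun i hi => ?_
    rw [map_mul, map_pow, Polynomial.coeToPowerSeries.ringHom_apply,
      Polynomial.coeToPowerSeries.ringHom_apply, Polynomial.coe_C, Polynomial.coe_X]
    have h1 : i < n ∧ PowerSeries.coeff i f ≠ 0 := by
      rw [Polynomial.mem_support_iff, PowerSeries.coeff_trunc] at hi
      by_contra h2
      refine hi ?_
      split_ifs with h3
      · by_contra h4
        exact h2 ⟨h3, h4⟩
      · rfl
    rw [PowerSeries.coeff_trunc, if_pos h1.1]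
    have h2 : PowerSeries.C (PowerSeries.coeff i f) ∈ J8 I ^ (n - i) := by
      refine Ideal.pow_right_mono (le_sup_left (a := I.map PowerSeries.C)) _ ?_
      rw [← Ideal.map_pow]
      exact Ideal.mem_map_of_mem _ (hf i)
    have h3 := Ideal.mul_mem_mul h2 (Ideal.pow_mem_pow hX i)
    rwa [← pow_add, Nat.sub_add_cancel h1.1.le] at h3

theorem smodEq8 (I : Ideal A) (n : ℕ) (x y : A) :
    x ≡ y [SMOD (I ^ n • ⊤ : Submodule A A)] ↔ x - y ∈ I ^ n := by
  rw [SModEq.sub_mem, smul_eq_mul, Ideal.mul_top]

theorem adic8 (I : Ideal A) [IsAdicComplete I A] : IsAdicComplete (J8 I) (PowerSeries A) := by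
  have hH : IsHausdorff (J8 I) (PowerSeries A) := by
    constructor
    intro f hf
    have h1 : ∀ n, f ∈ V8 I n := by
      intro n
      have h2 := (smodEq8 _ n f 0).1 (hf n)
      rwa [sub_zero, J8_pow] at h2
    ext i
    rw [map_zero]
    refine IsHausdorff.haus (inferInstance : IsHausdorff I A) _ fun n => ?_
    rw [smodEq8, sub_zero]
    have h3 := h1 (n + i) i
    rwa [Nat.add_sub_cancel] at h3
  have hP : IsPrecomplete (J8 I) (PowerSeries A) := by
    constructor
    intro f hf
    have hf' : ∀ {m n}, m ≤ n → f m - f n ∈ V8 I m := by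
      intro m n hmn
      have h2 := (smodEq8 _ m (f m) (f n)).1 (hf hmn)
      rwa [J8_pow] at h2
    have h1 : ∀ i, ∃ L : A, ∀ n, PowerSeries.coeff i (f (n + i)) - L ∈ I ^ n := by
      intro i
      obtain ⟨L, hL⟩ := IsPrecomplete.prec (inferInstance : IsPrecomplete I A)
        (f := fun n => PowerSeries.coeff i (f (n + i))) fun {m n} hmn => by
          rw [smodEq8, ← map_sub]
          have h3 := hf' (Nat.add_le_add_right hmn i) i
          rwa [Nat.add_sub_cancel] at h3
      exact ⟨L, fun n => (smodEq8 _ _ _ _).1 (hL n)⟩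
    choose L hL using h1
    refine ⟨PowerSeries.mk L, fun n => ?_⟩
    rw [smodEq8, J8_pow]
    intro i
    rw [map_sub, PowerSeries.coeff_mk]
    rcases le_total i n with h | h
    · have h3 := hL i (n - i)
      rwa [Nat.sub_add_cancel h] at h3
    · rw [Nat.sub_eq_zero_of_le h, pow_zero, Ideal.one_eq_top]
      exact Submodule.mem_top
  exact { toIsHausdorff := hH, toIsPrecomplete := hP }

theorem max8 [IsLocalRing A] : maximalIdeal (PowerSeries A) = J8 (maximalIdeal A) := by
  refine le_antisymm (fun f hf => ?_) (sup_le (Ideal.map_le_iff_le_comap.2 fun a ha => ?_)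
    ((Ideal.span_singleton_le_iff_mem _).2 ?_))
  · rw [mem_maximalIdeal, mem_nonunits_iff, PowerSeries.isUnit_iff_constantCoeff,
      ← mem_nonunits_iff, ← mem_maximalIdeal] at hf
    rw [← pow_one (J8 (maximalIdeal A)), J8_pow]
    intro i
    rcases Nat.eq_zero_or_pos i with h | h
    · subst h
      rw [Nat.sub_zero, pow_one, PowerSeries.coeff_zero_eq_constantCoeff_apply]
      exact hf
    · rw [Nat.sub_eq_zero_of_le h, pow_zero, Ideal.one_eq_top]
      exact Submodule.mem_top
  · rw [Ideal.mem_comap, mem_maximalIdeal, mem_nonunits_iff,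
      PowerSeries.isUnit_iff_constantCoeff, PowerSeries.constantCoeff_C]
    exact ha
  · rw [mem_maximalIdeal, mem_nonunits_iff, PowerSeries.isUnit_iff_constantCoeff,
      PowerSeries.constantCoeff_X]
    exact not_isUnit_zero

theorem adicMax8 [IsLocalRing A] [IsAdicComplete (maximalIdeal A) A] :
    IsAdicComplete (maximalIdeal (PowerSeries A)) (PowerSeries A) := by
  rw [max8]
  exact adic8 _

end one

theorem transport8 {A B : Type u} [CommRing A] [CommRing B] [IsLocalRing A] [IsLocalRing B]
    (e : A ≃+* B) (h : IsAdicComplete (maximalIdeal A) A) :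
    IsAdicComplete (maximalIdeal B) B := by
  rw [← map_ringEquiv_maximalIdeal e]
  exact (IsAdicComplete.congr_ringEquiv _ e).2 h

/-- R8, completeness. -/
theorem adicComplete_mvPowerSeries {S : Type u} [CommRing S] [IsLocalRing S] [IsNoetherianRing S]
    [IsAdicComplete (maximalIdeal S) S] (n : ℕ) :
    IsAdicComplete (maximalIdeal (MvPowerSeries (Fin n) S)) (MvPowerSeries (Fin n) S) := by
  induction n with
  | zero =>
    exact transport8 (MvPowerSeries.isEmptyEquiv (Fin 0) S).toRingEquiv.symm inferInstance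
  | succ n ih =>
    exact transport8 (MvPowerSeries.finSuccEquiv S n).toRingEquiv.symm adicMax8

end Pool.Agent.QU53
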