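import Pool.Agent.Lib.QU53.Step
import Pool.Agent.Lib.QU53.R7
import Pool.Agent.Lib.QU53.R8

/-!
# R9: the reduction theorem
-/

set_option autoImplicit false

namespace Pool.Agent.QU53

universe u

open IsLocalRing

/-- R9a: members of the ideal generated by an ideal of `S`. -/
theorem mem_mapC {S : Type u} [CommRing S] [IsNoetherianRing S] (I : Ideal S) {n : ℕ}
    (f : MvPowerSeries (Fin n) S) :
    f ∈ I.map (MvPowerSeries.C (σ := Fin n) (R := S)) ↔
      MvPowerSeries.map (Ideal.Quotient.mk I) f = 0 := by
  classical
  constructor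
  · intro hf
    have hle : I.map (MvPowerSeries.C (σ := Fin n) (R := S)) ≤
        RingHom.ker (MvPowerSeries.map (σ := Fin n) (Ideal.Quotient.mk I)) := by
      rw [Ideal.map_le_iff_le_comap]
      intro x hx
      rw [Ideal.mem_comap, RingHom.mem_ker, MvPowerSeries.map_C, Ideal.Quotient.eq_zero_iff_mem.2 hx,
        map_zero]
    exact hle hf
  · intro hf
    have h1 : ∀ d, MvPowerSeries.coeff d f ∈ I := by
      intro d
      rw [← Ideal.Quotient.eq_zero_iff_mem, ← MvPowerSeries.coeff_map, hf, map_zero]
    obtain ⟨G, hG⟩ := (isNoetherianRing_iff_ideal_fg S).1 inferInstance I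
    have h2 : ∀ d, ∃ a : S → S, ∑ g ∈ G, a g * g = MvPowerSeries.coeff d f := by
      intro d
      have h3 : MvPowerSeries.coeff d f ∈ Submodule.span S (G : Set S) := by
        rw [show Submodule.span S (G : Set S) = I from hG]; exact h1 d
      obtain ⟨a, ha⟩ := Submodule.mem_span_finset.1 h3
      exact ⟨a, by simpa using ha.2⟩
    choose a ha using h2
    have h4 : f = ∑ g ∈ G, MvPowerSeries.C g * (show MvPowerSeries (Fin n) S from fun d => a d g) := by
      ext d
      rw [map_sum, ← ha d]
      refine Finset.sum_congr rfl fun g _ => ?_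
      rw [MvPowerSeries.coeff_C_mul, mul_comm]
      rfl
    rw [h4]
    refine Ideal.sum_mem _ fun g hg => Ideal.mul_mem_right _ _ (Ideal.mem_map_of_mem _ ?_)
    rw [← hG]
    exact Submodule.subset_span hg

/-- The ideal generated by a prime ideal of `S` is prime. -/
theorem prime_mapC {S : Type u} [CommRing S] [IsNoetherianRing S] (I : Ideal S) [I.IsPrime]
    (n : ℕ) : (I.map (MvPowerSeries.C (σ := Fin n) (R := S))).IsPrime := by
  refine ⟨fun h => ?_, ?_⟩
  · rw [Ideal.eq_top_iff_one, mem_mapC, map_one] at h
    exact one_ne_zero h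
  · intro x y h
    rw [mem_mapC, map_mul] at h
    rw [mem_mapC, mem_mapC]
    exact mul_eq_zero.1 h

/-- Transfer along a ring isomorphism. -/
theorem transfer {B B' : Type u} [CommRing B] [CommRing B'] (e : B ≃+* B') (h : B) (k : ℕ)
    (H : ∀ (P : Type u) [AddCommGroup P] [Module B' P] [Module.Finite B' P]
      [Module.Projective B' P], HB B' P k (e h) → Module.Free B' P)
    (P : Type u) [AddCommGroup P] [Module B P] [Module.Finite B P] [Module.Projective B P]
    (hb : HB B P k h) : Module.Free B P := by
  let : Module B' P := Module.compHom P e.symm.toRingHom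
  have hsm : ∀ (c : B) (x : P), (e c : B') • x = c • x := by
    intro c x
    show (e.symm (e c)) • x = _
    rw [RingEquiv.symm_apply_apply]
  let σ : B →+* B' := e
  let σ' : B' →+* B := e.symm
  have i1 : RingHomInvPair σ σ' := ⟨by ext; simp [σ, σ'], by ext; simp [σ, σ']⟩
  have i2 : RingHomInvPair σ' σ := ⟨by ext; simp [σ, σ'], by ext; simp [σ, σ']⟩
  let E : P ≃ₛₗ[σ] P := { AddEquiv.refl P with map_smul' := fun c x => (hsm c x).symm }
  have hfin : Module.Finite B' P := Module.Finite.of_surjective E.toLinearMap E.surjective
  have hproj : Module.Projective B' P := Module.Projective.of_equiv E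
  have hfree : Module.Free B' P := by
    apply H
    obtain ⟨b, hli, hs⟩ := hb
    refine ⟨b, ?_, fun q => ?_⟩
    · rw [Fintype.linearIndependent_iff] at hli ⊢
      intro g hg i
      have h1 : ∑ i, e.symm (g i) • b i = 0 := by
        rw [← hg]
        refine Finset.sum_congr rfl fun i _ => ?_
        rw [← hsm, RingEquiv.apply_symm_apply]
      have h2 := hli _ h1 i
      rw [← RingEquiv.apply_symm_apply e (g i), h2, map_zero]
    · obtain ⟨c, hc⟩ := (Submodule.mem_span_range_iff_exists_fun B).1 (hs q)
      rw [Submodule.mem_span_range_iff_exists_fun]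
      refine ⟨fun i => e (c i), ?_⟩
      rw [hsm, ← hc]
      exact Finset.sum_congr rfl fun i _ => hsm _ _
  let bs := Module.Free.chooseBasis B' P
  refine Module.Free.of_basis (bs.mapCoeffs e.symm fun c x => ?_)
  rfl

theorem PF_congr {B B' : Type u} [CommRing B] [CommRing B'] (e : B ≃+* B') (H : PF B') : PF B := by
  intro P _ _ hf hp
  let : Module B' P := Module.compHom P e.symm.toRingHom
  have hsm : ∀ (c : B) (x : P), (e c : B') • x = c • x := by
    intro c x
    show (e.symm (e c)) • x = _
    rw [RingEquiv.symm_apply_apply]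
  let σ : B →+* B' := e
  let σ' : B' →+* B := e.symm
  have i1 : RingHomInvPair σ σ' := ⟨by ext; simp [σ, σ'], by ext; simp [σ, σ']⟩
  have i2 : RingHomInvPair σ' σ := ⟨by ext; simp [σ, σ'], by ext; simp [σ, σ']⟩
  let E : P ≃ₛₗ[σ] P := { AddEquiv.refl P with map_smul' := fun c x => (hsm c x).symm }
  have hfin : Module.Finite B' P := Module.Finite.of_surjective E.toLinearMap E.surjective
  have hproj : Module.Projective B' P := Module.Projective.of_equiv E
  have hfree : Module.Free B' P := H P hfin hproj
  let bs := Module.Free.chooseBasis B' P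
  refine Module.Free.of_basis (bs.mapCoeffs e.symm fun c x => ?_)
  rfl

/-- Localising at `r` and at the special fibre in the other order. -/
theorem PF_swap {R : Type u} [CommRing R] (r : R) (q : Ideal R) [q.IsPrime]
    (H : PF (Localization.Away (algebraMap R (Localization.AtPrime q) r))) :
    PF (Localization (Algebra.algebraMapSubmonoid (Localization.Away r) q.primeCompl)) := by
  let K := Localization.AtPrime q
  let B := Localization.Away r
  let T := Localization.Away (algebraMap R K r)
  have hu : IsUnit ((algebraMap R T) r) := by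
    rw [IsScalarTower.algebraMap_apply R K T]
    exact IsLocalization.Away.algebraMap_isUnit (algebraMap R K r)
  let ψ : B →+* T := IsLocalization.Away.lift (S := B) r (g := algebraMap R T) hu
  let : Algebra B T := ψ.toAlgebra
  have : IsScalarTower R B T := IsScalarTower.of_algebraMap_eq fun x =>
    (IsLocalization.Away.lift_eq (S := B) r (g := algebraMap R T) hu x).symm
  have h1 : IsLocalization (Algebra.algebraMapSubmonoid K (Submonoid.powers r)) T := by
    have h2 : Algebra.algebraMapSubmonoid K (Submonoid.powers r) =
        Submonoid.powers (algebraMap R K r) := by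
      rw [Algebra.algebraMapSubmonoid, Submonoid.map_powers]
    rw [h2]
    infer_instance
  have h3 : IsLocalization (Algebra.algebraMapSubmonoid B q.primeCompl) T :=
    IsLocalization.commutes B K T (Submonoid.powers r) q.primeCompl
  exact PF_congr (IsLocalization.algEquiv (Algebra.algebraMapSubmonoid B q.primeCompl)
    (Localization (Algebra.algebraMapSubmonoid B q.primeCompl)) T).toRingEquiv H

theorem isDomain_mv (S : Type u) [CommRing S] [IsDomain S] (n : ℕ) :
    IsDomain (MvPowerSeries (Fin n) S) :=
  NoZeroDivisors.to_isDomain _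

/-- Freeness from a basis over a complement of a divisor which does not contain the special
fibre. -/
theorem free_of_HB_of_MI (hMI : MI.{u}) {S : Type u} [CommRing S] [IsDomain S]
    [IsNoetherianRing S] [IsLocalRing S] [IsAdicComplete (maximalIdeal S) S] (r : S) (hr : r ≠ 0)
    (n k : ℕ) (f : MvPowerSeries (Fin n) S) (hf : MvPowerSeries.map (residue S) f ≠ 0)
    (P : Type u) [AddCommGroup P]
    [Module (Localization.Away (MvPowerSeries.C r : MvPowerSeries (Fin n) S)) P]
    [Module.Finite (Localization.Away (MvPowerSeries.C r : MvPowerSeries (Fin n) S)) P]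
    [Module.Projective (Localization.Away (MvPowerSeries.C r : MvPowerSeries (Fin n) S)) P]
    (hb : HB (Localization.Away (MvPowerSeries.C r : MvPowerSeries (Fin n) S)) P k
      (algebraMap _ _ f)) :
    Module.Free (Localization.Away (MvPowerSeries.C r : MvPowerSeries (Fin n) S)) P := by
  classical
  cases n with
  | zero =>
    have hfu : IsUnit f := by
      rw [MvPowerSeries.isUnit_iff_constantCoeff]
      by_contra hne
      apply hf
      ext d
      rw [MvPowerSeries.coeff_map, map_zero, Subsingleton.elim d 0]
      rw [residue_eq_zero_iff]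
      exact hne
    obtain ⟨b, hli, hs⟩ := hb
    obtain ⟨w, hw⟩ := (hfu.map (algebraMap _ (Localization.Away
      (MvPowerSeries.C r : MvPowerSeries (Fin 0) S)))).exists_left_inv
    refine Module.Free.of_basis (Module.Basis.mk hli fun x _ => ?_)
    have h1 : x = w • ((algebraMap _ (Localization.Away
      (MvPowerSeries.C r : MvPowerSeries (Fin 0) S)) f) • x) := by
      rw [smul_smul, hw, one_smul]
    rw [h1]
    exact Submodule.smul_mem _ _ (hs x)
  | succ n =>
    obtain ⟨τ, hτC, hτ⟩ := exists_auto n f hf
    let R := MvPowerSeries (Fin (n + 1)) S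
    let C' := MvPowerSeries (Fin n) S
    let R' := PowerSeries C'
    have i1 : IsDomain C' := isDomain_mv S n
    have i2 : IsAdicComplete (maximalIdeal C') C' := adicComplete_mvPowerSeries n
    let ψ : R ≃+* R' := τ.trans (MvPowerSeries.finSuccEquiv S n).toRingEquiv
    have hψC : ψ (MvPowerSeries.C r) = PowerSeries.C (MvPowerSeries.C r) := by
      show MvPowerSeries.finSuccEquiv S n (τ (MvPowerSeries.C r)) = _
      rw [hτC, MvPowerSeries.finSuccEquiv_C]
    let B := Localization.Away (MvPowerSeries.C r : R)
    let B' := Localization.Away (PowerSeries.C (MvPowerSeries.C r : C') : R')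
    have hM : Submonoid.map ψ.toMonoidHom (Submonoid.powers (MvPowerSeries.C r : R)) =
        Submonoid.powers (PowerSeries.C (MvPowerSeries.C r : C') : R') := by
      rw [Submonoid.map_powers]
      congr 1
    let e : B ≃+* B' := IsLocalization.ringEquivOfRingEquiv B B' ψ hM
    have he : ∀ x : R, e (algebraMap R B x) = algebraMap R' B' (ψ x) := fun x =>
      IsLocalization.ringEquivOfRingEquiv_eq hM x
    have hr' : (MvPowerSeries.C r : C') ≠ 0 := by
      intro h
      exact hr (MvPowerSeries.C_injective (by rw [h, map_zero]))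
    refine transfer e (algebraMap R B f) k ?_ P hb
    intro Q _ _ _ _ hQ
    rw [he] at hQ
    exact one_step_of_MI hMI (MvPowerSeries.C r : C') hr' k Q (ψ f) hτ hQ

/-- R9, the reduction to the local ring of the special fibre. -/
theorem reduction_of_MI (hMI : MI.{u}) {S : Type u} [CommRing S] [IsDomain S] [IsNoetherianRing S]
    [IsLocalRing S] [IsAdicComplete (maximalIdeal S) S] (r : S) (hr : r ≠ 0) (n : ℕ)
    [hp : ((maximalIdeal S).map (MvPowerSeries.C (σ := Fin n) (R := S))).IsPrime]
    (H : PF (Localization.Away (algebraMap (MvPowerSeries (Fin n) S)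
      (Localization.AtPrime ((maximalIdeal S).map (MvPowerSeries.C (σ := Fin n) (R := S))))
      (MvPowerSeries.C r)))) :
    PF (Localization.Away (MvPowerSeries.C r : MvPowerSeries (Fin n) S)) := by
  classical
  intro P _ _ hfin hproj
  let R := MvPowerSeries (Fin n) S
  let q : Ideal R := (maximalIdeal S).map (MvPowerSeries.C (σ := Fin n) (R := S))
  let B := Localization.Away (MvPowerSeries.C r : R)
  have hR : IsDomain R := isDomain_mv S n
  have hrR : (MvPowerSeries.C r : R) ≠ 0 := by
    intro h
    exact hr (MvPowerSeries.C_injective (by rw [h, map_zero]))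
  have hle : Submonoid.powers (MvPowerSeries.C r : R) ≤ nonZeroDivisors R :=
    powers_le_nonZeroDivisors_of_noZeroDivisors hrR
  have hB : IsDomain B := IsLocalization.isDomain_localization hle
  have hinj : Function.Injective (algebraMap R B) := IsLocalization.injective _ hle
  have hM : (0 : B) ∉ Algebra.algebraMapSubmonoid B q.primeCompl := by
    rintro ⟨x, hx, hx0⟩
    have h1 : x = 0 := hinj (by rw [map_zero]; exact hx0)
    exact hx (h1 ▸ q.zero_mem)
  obtain ⟨k, _, ⟨f, hf, rfl⟩, hHB⟩ := exists_HB (Algebra.algebraMapSubmonoid B q.primeCompl) hM P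
    (PF_swap _ _ H)
  have hfq : MvPowerSeries.map (residue S) f ≠ 0 := fun h0 => hf ((mem_mapC _ f).2 h0)
  exact free_of_HB_of_MI hMI r hr n k f hfq P hHB

end Pool.Agent.QU53
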