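import Mathlib
import Pool.Agent.Lib.QU53.R3
import Pool.Agent.Lib.QU53.Red
import Pool.Agent.Lib.QU53.R10

/-!
# Projective modules over `S⟦z_1, …, z_n⟧[1/r]`, `r ∈ S`: the reduction to the special fibre and the
case of a base of dimension at most two
-/

set_option autoImplicit false

namespace Pool.Agent.QU53

universe u

open IsLocalRing

/-- Monic inversion, `R3`. -/
theorem mi : MI.{u} := fun _ _ _ k P _ _ _ _ H hH hb c hc => monic_inversion k P H hH hb c hc

/-- The reduction theorem: for a complete noetherian local domain `S` and `r ≠ 0` in `S`, finite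
projective modules over `S⟦z_1, …, z_n⟧[1/r]` are free as soon as the same holds over
`K[1/r]`, `K` the localisation of `S⟦z_1, …, z_n⟧` at the prime generated by the maximal ideal
of `S`. -/
theorem reduction {S : Type u} [CommRing S] [IsDomain S] [IsNoetherianRing S]
    [IsLocalRing S] [IsAdicComplete (maximalIdeal S) S] (r : S) (hr : r ≠ 0) (n : ℕ)
    [((maximalIdeal S).map (MvPowerSeries.C (σ := Fin n) (R := S))).IsPrime]
    (H : PF (Localization.Away (algebraMap (MvPowerSeries (Fin n) S)
      (Localization.AtPrime ((maximalIdeal S).map (MvPowerSeries.C (σ := Fin n) (R := S))))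
      (MvPowerSeries.C r)))) :
    PF (Localization.Away (MvPowerSeries.C r : MvPowerSeries (Fin n) S)) :=
  reduction_of_MI mi r hr n H

/-- A base of dimension at most two. -/
theorem two_dim {S : Type u} [CommRing S] [IsRegularLocalRing S]
    [IsAdicComplete (maximalIdeal S) S] (hd : ringKrullDim S ≤ 2) (n : ℕ) (r : S) (hr : r ≠ 0) :
    PF (Localization.Away (MvPowerSeries.C r : MvPowerSeries (Fin n) S)) := by
  have hdom : IsDomain S :=
    BEH5.Reg.isDomain_of_regular _ S IsRegularLocalRing.spanFinrank_maximalIdeal.symm
  have hp : ((maximalIdeal S).map (MvPowerSeries.C (σ := Fin n) (R := S))).IsPrime :=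
    prime_mapC _ n
  exact reduction r hr n (special_fibre hd n r hr)

end Pool.Agent.QU53
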