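import Mathlib
import Pool.Agent.Lib.QU53.Main
import Pool.Agent.Lib.QU62.G3

/-!
# A three-dimensional base
-/

set_option autoImplicit false

namespace Pool.Agent.QU53

universe u

open IsLocalRing

/-- A base of dimension at most three and a regular parameter. -/
theorem three_dim_all {S : Type u} [CommRing S] [IsRegularLocalRing S]
    [IsAdicComplete (maximalIdeal S) S] (hd : ringKrullDim S ≤ 3) (n : ℕ) (r : S)
    (hr : r ∈ maximalIdeal S) (hr2 : r ∉ maximalIdeal S ^ 2) :
    PF (Localization.Away (MvPowerSeries.C r : MvPowerSeries (Fin n) S)) := by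
  obtain ⟨d, hd'⟩ : ∃ d : ℕ, ringKrullDim S = (d : WithBot ℕ∞) :=
    ⟨_, IsRegularLocalRing.spanFinrank_maximalIdeal.symm⟩
  have hd3 : d ≤ 3 := by
    rw [hd'] at hd
    exact_mod_cast hd
  rcases Nat.lt_or_ge 2 d with h | h
  · have h3 : d = 3 := by omega
    subst h3
    exact QU62.three_dim (by rw [hd']; rfl) n r hr hr2
  · refine two_dim ?_ n r ?_
    · rw [hd']
      exact_mod_cast h
    · rintro rfl
      exact hr2 (Ideal.zero_mem _)

end Pool.Agent.QU53
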