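import Pool.Agent.Lib.QU53.Defs

/-!
Row R1 (helper62).  Local Horrocks theorem, elementary form: a finitely generated projective module
over `A[X]`, `A` a local domain, which contains `k` linearly independent elements whose span
contains `H P` for a monic polynomial `H`, is free.
-/

set_option autoImplicit false

namespace Pool.Agent.QU53

open IsLocalRing Polynomial

universe u

namespace R1

section loc

variable {A : Type u} [CommRing A] [IsLocalRing A]

/-- the ideal `m[X]` -/
noncomputable abbrev mI (A : Type u) [CommRing A] [IsLocalRing A] : Ideal A[X] :=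
  Ideal.map (C : A →+* A[X]) (maximalIdeal A)

lemma mem_mI {f : A[X]} : f ∈ mI A ↔ ∀ n, f.coeff n ∈ maximalIdeal A :=
  Ideal.mem_map_C_iff

lemma mem_mI_iff_map {f : A[X]} : f ∈ mI A ↔ f.map (residue A) = 0 := by
  rw [mem_mI, Polynomial.ext_iff]
  simp only [coeff_map, coeff_zero, residue_eq_zero_iff]

instance mI_prime : (mI A).IsPrime :=
  Ideal.isPrime_map_C_of_isPrime

instance mI_pid : IsPrincipalIdealRing (A[X] ⧸ mI A) := by
  let _ := Ideal.Quotient.field (maximalIdeal A)
  let e := Ideal.polynomialQuotientEquivQuotientPolynomial (maximalIdeal A)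
  exact IsPrincipalIdealRing.of_surjective e e.surjective

lemma monic_notMem {G : A[X]} (hG : G.Monic) : G ∉ mI A := by
  intro h
  have h1 := mem_mI.1 h G.natDegree
  rw [coeff_natDegree, hG.leadingCoeff] at h1
  exact (maximalIdeal.isMaximal A).ne_top ((Ideal.eq_top_iff_one _).2 h1)

lemma ideal_eq_top (O : Ideal A[X]) {H w : A[X]} (hH : H.Monic) (hHO : H ∈ O) (hw : w ∈ O)
    (hw1 : w - 1 ∈ mI A) : O = ⊤ := by
  by_contra hO
  obtain ⟨M, hM, hOM⟩ := Ideal.exists_le_maximal O hO
  have hint := hH.quotient_isIntegral (hOM hHO)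
  have hmb : (⊥ : Ideal (A[X] ⧸ M)).IsMaximal := (Ideal.bot_quotient_isMaximal_iff M).2 hM
  have hmax : (Ideal.comap (C : A →+* A[X]) M).IsMaximal := by
    have h2 := Ideal.isMaximal_comap_of_isIntegral_of_isMaximal'
      _ hint (⊥ : Ideal (A[X] ⧸ M))
    have h3 : Ideal.comap (((Ideal.Quotient.mkₐ A M).comp (Algebra.ofId A A[X])).toRingHom)
        (⊥ : Ideal (A[X] ⧸ M)) = Ideal.comap (C : A →+* A[X]) M := by
      ext a
      simp only [Ideal.mem_comap, Ideal.mem_bot]
      exact Ideal.Quotient.eq_zero_iff_mem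
    rw [h3] at h2
    exact h2
  have hle : mI A ≤ M := by
    rw [Ideal.map_le_iff_le_comap, eq_maximalIdeal hmax]
  apply hM.ne_top
  rw [Ideal.eq_top_iff_one]
  have := M.sub_mem (hOM hw) (hle hw1)
  simpa using this

/-- a polynomial outside `m[X]` is, modulo `m[X]`, a unit times a monic polynomial -/
lemma exists_monic {g : A[X]} (hg : g ∉ mI A) :
    ∃ (g₁ : A[X]) (a b : A), g₁.Monic ∧ a * b = 1 ∧ g - C a * g₁ ∈ mI A := by
  have h0 : g.map (residue A) ≠ 0 := fun h => hg (mem_mI_iff_map.2 h)
  set gb := g.map (residue A) with hgb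
  have hlc : gb.leadingCoeff ≠ 0 := leadingCoeff_ne_zero.2 h0
  have hmon : (C (gb.leadingCoeff)⁻¹ * gb).Monic := by
    rw [Monic, leadingCoeff_mul, leadingCoeff_C, inv_mul_cancel₀ hlc]
  have hl : (C (gb.leadingCoeff)⁻¹ * gb) ∈ lifts (residue A) := by
    rw [mem_lifts]
    exact map_surjective _ residue_surjective _
  obtain ⟨g₁, h1, -, h3⟩ := lifts_and_natDegree_eq_and_monic hl hmon
  obtain ⟨a, ha⟩ := residue_surjective gb.leadingCoeff
  have hau : IsUnit a := by
    have : residue A a ≠ 0 := by rw [ha]; exact hlc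
    exact (residue_ne_zero_iff_isUnit a).1 this
  obtain ⟨b, hb⟩ := hau.exists_right_inv
  refine ⟨g₁, a, b, h3, hb, ?_⟩
  rw [mem_mI_iff_map, Polynomial.map_sub, Polynomial.map_mul, map_C, ha, h1, ← hgb, ← mul_assoc,
    ← C_mul, mul_inv_cancel₀ hlc, C_1, one_mul, sub_self]

variable {P : Type u} [AddCommGroup P] [Module A[X] P]

/-- division of a functional by a generator of its image modulo `m[X]` -/
lemma exists_div [Module.Projective A[X] P] (a : P →ₗ[A[X]] A[X]) (x : P) (hx : a x ∉ mI A) :
    ∃ (ψ : P →ₗ[A[X]] A[X]) (g : A[X]) (q : P), g ∉ mI A ∧ ψ q - 1 ∈ mI A ∧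
      ∀ p, a p - ψ p * g ∈ mI A := by
  set mk := Ideal.Quotient.mk (mI A) with hmk
  have hsurj : Function.Surjective mk := Ideal.Quotient.mk_surjective
  let J : Ideal (A[X] ⧸ mI A) := Ideal.map mk (LinearMap.range a)
  obtain ⟨gb, hgb⟩ := (IsPrincipalIdealRing.principal J).principal
  obtain ⟨g, hg⟩ := hsurj gb
  have hmem : ∀ p, mk (a p) ∈ J := fun p => Ideal.mem_map_of_mem mk (LinearMap.mem_range_self a p)
  have hc : ∀ p, ∃ c, mk (a p) = c * gb := by
    intro p
    have h1 := hmem p
    rw [hgb] at h1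
    obtain ⟨c, hc⟩ := Submodule.mem_span_singleton.1 h1
    exact ⟨c, by rw [← hc]; rfl⟩
  have hgb0 : gb ≠ 0 := by
    intro h0
    obtain ⟨c, hc⟩ := hc x
    rw [h0, mul_zero] at hc
    exact hx (Ideal.Quotient.eq_zero_iff_mem.1 hc)
  have hgJ : gb ∈ J := by
    rw [hgb]
    exact Submodule.mem_span_singleton_self gb
  obtain ⟨y, ⟨q, rfl⟩, hq⟩ := (Ideal.mem_map_iff_of_surjective mk hsurj).1 hgJ
  choose c hc using hc
  let γ : P →ₗ[A[X]] (A[X] ⧸ mI A) :=
    { toFun := c
      map_add' := by
        intro p p'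
        apply mul_right_cancel₀ hgb0
        rw [← hc, add_mul, ← hc, ← hc, map_add, map_add]
      map_smul' := by
        intro s p
        apply mul_right_cancel₀ hgb0
        have h1 : s • c p = mk s * c p := rfl
        rw [← hc, RingHom.id_apply, map_smul, smul_eq_mul, map_mul, hc, h1, mul_assoc] }
  obtain ⟨ψ, hψ⟩ := Module.projective_lifting_property
    (Submodule.mkQ (mI A) : A[X] →ₗ[A[X]] (A[X] ⧸ mI A)) γ (Submodule.mkQ_surjective _)
  have hψ' : ∀ p, mk (ψ p) = c p := fun p => LinearMap.congr_fun hψ p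
  refine ⟨ψ, g, q, ?_, ?_, ?_⟩
  · intro h
    apply hgb0
    rw [← hg]
    exact Ideal.Quotient.eq_zero_iff_mem.2 h
  · rw [← Ideal.Quotient.eq_zero_iff_mem]
    change mk (ψ q - 1) = 0
    rw [map_sub, hψ', map_one, sub_eq_zero]
    apply mul_right_cancel₀ hgb0
    rw [← hc, hq, one_mul]
  · intro p
    rw [← Ideal.Quotient.eq_zero_iff_mem]
    change mk (a p - ψ p * g) = 0
    rw [map_sub, map_mul, hψ', hg, ← hc, sub_self]

end loc

/-- coordinates of `H • p` -/
lemma exists_coords {R : Type u} [CommRing R] {P : Type u} [AddCommGroup P] [Module R P] {k : ℕ}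
    {H : R} {b : Fin k → P} (hli : LinearIndependent R b)
    (hsp : ∀ q : P, H • q ∈ Submodule.span R (Set.range b)) :
    ∃ a : P →ₗ[R] (Fin k → R), (∀ q, H • q = ∑ i, a q i • b i) ∧
      ∀ c : Fin k → R, a (∑ i, c i • b i) = H • c := by
  let B := Module.Basis.span hli
  have hB : ∀ i, (B i : P) = b i := fun i => congrArg Subtype.val (Module.Basis.span_apply hli i)
  let f : P →ₗ[R] Submodule.span R (Set.range b) :=
    LinearMap.codRestrict _ (H • LinearMap.id) (fun q => by simpa using hsp q)
  have hf : ∀ q, (f q : P) = H • q := fun q => rfl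
  refine ⟨B.equivFun.toLinearMap ∘ₗ f, ?_, ?_⟩
  · intro q
    have h1 := congrArg (Subtype.val) (B.sum_equivFun (f q))
    rw [hf] at h1
    rw [← h1, Submodule.coe_sum]
    exact Finset.sum_congr rfl (fun i _ => by rw [Submodule.coe_smul, hB]; rfl)
  · intro c
    have h2 : f (∑ i, c i • b i) = H • ∑ i, c i • B i := by
      apply Subtype.ext
      rw [hf]
      simp [hB]
    rw [LinearMap.comp_apply, h2, map_smul]
    congr 1
    exact B.equivFun_symm_apply c ▸ B.equivFun.apply_symm_apply c

/-- Nakayama: an ideal of `A[X]` with a monic element which contains a monic `g₁` modulo `m[X]`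
contains a monic polynomial of the same degree. -/
lemma exists_monic_mem {A : Type u} [CommRing A] [IsLocalRing A] (J : Ideal A[X]) {H g₁ : A[X]}
    (hH : H.Monic) (hHJ : H ∈ J) (hg₁ : g₁.Monic) (hgJ : g₁ ∈ J ⊔ mI A) :
    ∃ g₀ ∈ J, g₀.Monic ∧ g₀.natDegree = g₁.natDegree := by
  have hfinH : Module.Finite A (A[X] ⧸ Ideal.span {H}) := hH.finite_quotient
  have hle : Ideal.span {H} ≤ J := (Ideal.span_singleton_le_iff_mem J).2 hHJ
  have hfin : Module.Finite A (A[X] ⧸ J) := by
    refine Module.Finite.of_surjective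
      ((Ideal.Quotient.factorₐ A hle).toLinearMap) ?_
    exact Ideal.Quotient.factor_surjective hle
  let π : A[X] →ₗ[A] (A[X] ⧸ J) := (Ideal.Quotient.mkₐ A J).toLinearMap
  have hπ : ∀ f, π f = Ideal.Quotient.mk J f := fun f => rfl
  have hI : ∀ f ∈ mI A, π f ∈ (maximalIdeal A • ⊤ : Submodule A (A[X] ⧸ J)) := by
    intro f hf
    rw [← sum_monomial_eq f, Polynomial.sum, map_sum]
    refine Submodule.sum_mem _ (fun n _ => ?_)
    have h1 : (monomial n (f.coeff n) : A[X]) = (f.coeff n) • (X ^ n : A[X]) := by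
      rw [smul_X_eq_monomial]
    rw [h1, map_smul]
    exact Submodule.smul_mem_smul (mem_mI.1 hf n) trivial
  have hJ0 : ∀ f ∈ J, π f = 0 := fun f hf => by
    rw [hπ]
    exact Ideal.Quotient.eq_zero_iff_mem.2 hf
  set d := g₁.natDegree with hd
  let N' : Submodule A (A[X] ⧸ J) := (degreeLT A d).map π
  have hnak : (⊤ : Submodule A (A[X] ⧸ J)) ≤ N' := by
    refine Submodule.le_of_le_smul_of_le_jacobson_bot (I := maximalIdeal A) hfin.fg_top
      (maximalIdeal_le_jacobson _) ?_
    intro y _
    obtain ⟨f, rfl⟩ := Ideal.Quotient.mk_surjective y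
    rw [← hπ]
    have hdiv := modByMonic_add_div f g₁
    have hmod : f %ₘ g₁ ∈ degreeLT A d := by
      rw [mem_degreeLT]
      calc degree (f %ₘ g₁) < degree g₁ := degree_modByMonic_lt _ hg₁
        _ = _ := degree_eq_natDegree hg₁.ne_zero
    have hm : g₁ * (f /ₘ g₁) ∈ J ⊔ mI A := Ideal.mul_mem_right _ _ hgJ
    obtain ⟨y, hy, z, hz, hyz⟩ := Submodule.mem_sup.1 hm
    rw [← hdiv, map_add, ← hyz, map_add, hJ0 y hy, zero_add]
    exact Submodule.add_mem_sup (Submodule.mem_map_of_mem hmod) (hI z hz)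
  obtain ⟨r, hr, hr2⟩ := hnak (x := π (X ^ d)) trivial
  have hr' : degree r < d := mem_degreeLT.1 hr
  refine ⟨X ^ d - r, ?_, monic_X_pow_sub hr', ?_⟩
  · rw [hπ, hπ, Ideal.Quotient.eq] at hr2
    have := J.neg_mem hr2
    rwa [neg_sub] at this
  · apply natDegree_eq_of_degree_eq_some
    rw [degree_sub_eq_left_of_degree_lt, degree_X_pow]
    rw [degree_X_pow]
    exact hr'

/-- a vector with a monic coordinate which is unimodular modulo `m[X]` -/
lemma exists_v {A : Type u} [CommRing A] [IsLocalRing A] {P : Type u} [AddCommGroup P]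
    [Module A[X] P] [Module.Projective A[X] P] (a : P →ₗ[A[X]] A[X]) (x : P)
    (hx : (a x).Monic) :
    ∃ (v : P) (ψ : P →ₗ[A[X]] A[X]), (a v).Monic ∧ ψ v - 1 ∈ mI A := by
  obtain ⟨ψ, g, q, hg, hq, hdiv⟩ := exists_div a x (monic_notMem hx)
  obtain ⟨g₁, α, β, hg₁, hαβ, hgg⟩ := exists_monic hg
  have hdiv' : ∀ p, a p - (C α * ψ p) * g₁ ∈ mI A := by
    intro p
    have h1 := (mI A).add_mem (hdiv p) ((mI A).mul_mem_left (ψ p) hgg)
    have h2 : a p - ψ p * g + ψ p * (g - C α * g₁) = a p - (C α * ψ p) * g₁ := by ring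
    rwa [h2] at h1
  have hαβ' : (C α * C β : A[X]) = 1 := by rw [← C_mul, hαβ, C_1]
  have hgJ : g₁ ∈ (LinearMap.range a : Ideal A[X]) ⊔ mI A := by
    have h1 : a (C β • q) ∈ (LinearMap.range a : Ideal A[X]) := LinearMap.mem_range_self a _
    have h2 : g₁ - a (C β • q) ∈ mI A := by
      have h3 := (mI A).add_mem (hdiv' (C β • q)) ((mI A).mul_mem_right g₁ hq)
      have h4 := (mI A).neg_mem h3
      have h5 : -(a (C β • q) - (C α * ψ (C β • q)) * g₁ + (ψ q - 1) * g₁)
          = g₁ - a (C β • q) := by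
        rw [map_smul, map_smul, smul_eq_mul, smul_eq_mul]
        linear_combination (g₁ * ψ q) * hαβ'
      rwa [h5] at h4
    have := Submodule.add_mem_sup h1 h2
    rwa [add_sub_cancel] at this
  obtain ⟨g₀, ⟨p₀, rfl⟩, hmon, hdeg⟩ := exists_monic_mem _ hx (LinearMap.mem_range_self a x) hg₁ hgJ
  refine ⟨p₀, C α • ψ, hmon, ?_⟩
  rw [LinearMap.smul_apply, smul_eq_mul, mem_mI_iff_map]
  have h1 : (a p₀).map (residue A) = (C α * ψ p₀).map (residue A) * g₁.map (residue A) := by
    rw [← Polynomial.map_mul, ← sub_eq_zero, ← Polynomial.map_sub]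
    exact mem_mI_iff_map.1 (hdiv' p₀)
  have h2 : ((C α * ψ p₀).map (residue A)).Monic := by
    refine Monic.of_mul_monic_right (hg₁.map (residue A)) ?_
    rw [← h1]
    exact hmon.map _
  have h3 : ((C α * ψ p₀).map (residue A)).natDegree = 0 := by
    have h4 := congrArg natDegree h1
    rw [h2.natDegree_mul (hg₁.map _), hmon.natDegree_map, hg₁.natDegree_map, hdeg] at h4
    omega
  rw [Polynomial.map_sub, h2.natDegree_eq_zero.1 h3, Polynomial.map_one, sub_self]

/-- the induction -/
theorem free_aux {A : Type u} [CommRing A] [IsDomain A] [IsLocalRing A] (k : ℕ) :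
    ∀ (P : Type u) [AddCommGroup P] [Module A[X] P] [Module.Finite A[X] P]
    [Module.Projective A[X] P] (H : A[X]) (_ : H.Monic) (_ : HB A[X] P k H),
    Module.Free A[X] P := by
  induction k with
  | zero =>
    intro P _ _ _ _ H hH hb
    obtain ⟨b, -, hsp⟩ := hb
    obtain ⟨s, hs⟩ := Module.Projective.out (R := A[X]) (P := P)
    have h0 : ∀ p : P, p = 0 := by
      intro p
      have h1 : H • p = 0 := by
        have h2 := hsp p
        rw [Set.range_eq_empty, Submodule.span_empty] at h2
        exact (Submodule.mem_bot _).1 h2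
      have h3 : s p = 0 := by
        have h4 : H • s p = 0 := by rw [← map_smul, h1, map_zero]
        exact (smul_eq_zero.1 h4).resolve_left hH.ne_zero
      rw [← hs p, h3, map_zero]
    have : Subsingleton P := ⟨fun x y => by rw [h0 x, h0 y]⟩
    infer_instance
  | succ n ih =>
    intro P _ _ _ _ H hH hb
    obtain ⟨b, hli, hsp⟩ := hb
    obtain ⟨a, ha, hab⟩ := exists_coords hli hsp
    have hab' : ∀ (c : Fin (n + 1) → A[X]) j, a (∑ i, c i • b i) j = H * c j := by
      intro c j
      rw [hab c]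
      rfl
    let a0 : P →ₗ[A[X]] A[X] := LinearMap.proj 0 ∘ₗ a
    have hx : a0 (b 0) = H := by
      have h1 := hab' (Pi.single 0 1) 0
      rw [Fin.sum_univ_succ] at h1
      change a (b 0) 0 = H
      simpa [Pi.single_apply, Fin.succ_ne_zero] using h1
    obtain ⟨v, ψ₀, hv, hψ₀⟩ := exists_v a0 (b 0) (by rw [hx]; exact hH)
    -- `v` is unimodular
    have htop := ideal_eq_top (LinearMap.range (LinearMap.applyₗ v :
      (P →ₗ[A[X]] A[X]) →ₗ[A[X]] A[X])) hv ⟨a0, rfl⟩ ⟨ψ₀, rfl⟩ hψ₀
    obtain ⟨ψ, hψ⟩ : ∃ ψ : P →ₗ[A[X]] A[X], ψ v = 1 := by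
      have h1 : (1 : A[X]) ∈ LinearMap.range (LinearMap.applyₗ v :
        (P →ₗ[A[X]] A[X]) →ₗ[A[X]] A[X]) := by rw [htop]; trivial
      obtain ⟨ψ, hψ⟩ := h1
      exact ⟨ψ, hψ⟩
    let π : P →ₗ[A[X]] LinearMap.ker ψ :=
      LinearMap.codRestrict _ (LinearMap.id - (LinearMap.toSpanSingleton A[X] P v) ∘ₗ ψ)
        (fun p => by simp [LinearMap.mem_ker, hψ])
    have hπ : ∀ p, (π p : P) = p - ψ p • v := fun p => rfl
    have hπv : π v = 0 := by
      apply Subtype.ext
      rw [hπ, hψ, one_smul, sub_self]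
      rfl
    have hπk : ∀ p : LinearMap.ker ψ, π (p : P) = p := by
      intro p
      apply Subtype.ext
      rw [hπ, LinearMap.mem_ker.1 p.2, zero_smul, sub_zero]
    have hfin : Module.Finite A[X] (LinearMap.ker ψ) :=
      Module.Finite.of_surjective π (fun p => ⟨p, hπk p⟩)
    have hproj : Module.Projective A[X] (LinearMap.ker ψ) :=
      Module.Projective.of_split (LinearMap.ker ψ).subtype π (LinearMap.ext hπk)
    have hHB : HB A[X] (LinearMap.ker ψ) n (a0 v * H) := by
      refine ⟨fun i => π (b i.succ), ?_, ?_⟩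
      · rw [Fintype.linearIndependent_iff]
        intro c hc
        -- the vector `Σ c i b (i+1)` is a multiple of `v`
        have h1 : π (∑ i, (Fin.cons 0 c : Fin (n + 1) → A[X]) i • b i) = 0 := by
          rw [Fin.sum_univ_succ]
          simp only [Fin.cons_zero, zero_smul, Fin.cons_succ, zero_add, map_sum, map_smul]
          exact hc
        set y := ∑ i, (Fin.cons 0 c : Fin (n + 1) → A[X]) i • b i with hy
        have h2 : y = ψ y • v := by
          have := congrArg Subtype.val h1
          rw [hπ] at this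
          exact sub_eq_zero.1 this
        have h3 : a0 y = 0 := by
          change a y 0 = 0
          rw [hy, hab']
          simp
        have h4 : ψ y = 0 := by
          rw [h2, map_smul, smul_eq_mul] at h3
          exact (mul_eq_zero.1 h3).resolve_right hv.ne_zero
        have h5 : y = 0 := by rw [h2, h4, zero_smul]
        intro i
        have h6 := Fintype.linearIndependent_iff.1 hli _ h5 i.succ
        simpa using h6
      · intro p
        have h1 := ha (p : P)
        have h2 := ha v
        have h3 : (a0 v * H) • (p : P) = (a0 (p : P) * H) • v +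
            ∑ i : Fin n, (a0 v * a p i.succ - a0 p * a v i.succ) • b i.succ := by
          rw [mul_smul, mul_smul, h1, h2, Fin.sum_univ_succ, Fin.sum_univ_succ, smul_add, smul_add,
            Finset.smul_sum, Finset.smul_sum]
          simp only [sub_smul, Finset.sum_sub_distrib, smul_smul]
          have h4 : a0 v * a (p : P) 0 = a0 (p : P) * a v 0 := by
            change a v 0 * a (p : P) 0 = a (p : P) 0 * a v 0
            ring
          rw [h4]
          abel
        have h5 : (a0 v * H) • p = ∑ i : Fin n, (a0 v * a p i.succ - a0 p * a v i.succ) •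
            π (b i.succ) := by
          have h6 := congrArg π h3
          rw [map_add, map_smul, map_smul, hπv, smul_zero, zero_add, hπk, map_sum] at h6
          rw [h6]
          exact Finset.sum_congr rfl (fun i _ => map_smul _ _ _)
        rw [h5]
        exact Submodule.sum_mem _ (fun i _ => Submodule.smul_mem _ _
          (Submodule.subset_span ⟨i, rfl⟩))
    have hfree := ih (LinearMap.ker ψ) (a0 v * H) (hv.mul hH) hHB
    let e : (LinearMap.ker ψ × A[X]) ≃ₗ[A[X]] P :=
      { toFun := fun y => (y.1 : P) + y.2 • v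
        map_add' := by
          intro y z
          simp only [Prod.fst_add, Prod.snd_add, Submodule.coe_add, add_smul]
          abel
        map_smul' := by
          intro c y
          simp only [Prod.smul_fst, Prod.smul_snd, Submodule.coe_smul, smul_add, smul_smul,
            smul_eq_mul, RingHom.id_apply]
        invFun := fun p => (π p, ψ p)
        left_inv := by
          intro y
          have h1 : π ((y.1 : P) + y.2 • v) = y.1 := by
            rw [map_add, map_smul, hπv, smul_zero, add_zero, hπk]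
          have h2 : ψ ((y.1 : P) + y.2 • v) = y.2 := by
            rw [map_add, map_smul, hψ, LinearMap.mem_ker.1 y.1.2, zero_add, smul_eq_mul, mul_one]
          exact Prod.ext h1 h2
        right_inv := by
          intro p
          simp only [hπ, sub_add_cancel] }
    exact Module.Free.of_equiv e

end R1

/-- R1, local Horrocks. -/
theorem horrocks {A : Type u} [CommRing A] [IsDomain A] [IsLocalRing A] (k : ℕ) (P : Type u)
    [AddCommGroup P] [Module A[X] P] [Module.Finite A[X] P] [Module.Projective A[X] P]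
    (H : A[X]) (hH : H.Monic) (hb : HB A[X] P k H) : Module.Free A[X] P :=
  R1.free_aux k P H hH hb

end Pool.Agent.QU53
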