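import Mathlib
import Pool.Agent.Lib.QU53.Main

/-!
# The reduction theorem for modules of large rank
-/

set_option autoImplicit false

namespace Pool.Agent.QU53

universe u

open IsLocalRing

/-- Every finitely generated projective module of rank at least `d` over `A` is free. -/
def PFr (A : Type u) [CommRing A] (d : ℕ) : Prop :=
  ∀ (P : Type u) [AddCommGroup P] [Module A P],
    Module.Finite A P → Module.Projective A P → d ≤ Module.finrank A P → Module.Free A P

theorem PFr_congr {B B' : Type u} [CommRing B] [CommRing B'] (e : B ≃+* B') {d : ℕ}
    (H : PFr B' d) : PFr B d := by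
  intro P _ _ hf hp hd
  let : Module B' P := Module.compHom P e.symm.toRingHom
  have hsm : ∀ (c : B) (x : P), (e c : B') • x = c • x := by
    intro c x
    show (e.symm (e c)) • x = _
    rw [RingEquiv.symm_apply_apply]
  let σ : B →+* B' := e
  let σ' : B' →+* B := e.symm
  have i1 : RingHomInvPair σ σ' := ⟨by ext; simp [σ, σ'], by ext; simp [σ, σ']⟩
  have i2 : RingHomInvPair σ' σ := ⟨by ext; simp [σ, σ'], by ext; simp [σ, σ']⟩
  let E : P ≃ₛₗ[σ] P := { AddEquiv.refl P with map_smul' := fun c x => (hsm c x).symm }
  have hfin : Module.Finite B' P := Module.Finite.of_surjective E.toLinearMap E.surjective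
  have hproj : Module.Projective B' P := Module.Projective.of_equiv E
  have hrank : Module.finrank B P = Module.finrank B' P := by
    unfold Module.finrank
    rw [rank_eq_of_equiv_equiv (R := B) (R' := B') (M := P) (M₁ := P) e (AddEquiv.refl P)
      e.bijective fun c x => (hsm c x).symm]
  have hfree : Module.Free B' P := H P hfin hproj (hrank ▸ hd)
  let bs := Module.Free.chooseBasis B' P
  refine Module.Free.of_basis (bs.mapCoeffs e.symm fun c x => ?_)
  rfl

/-- Localising at `r` and at the special fibre in the other order. -/
theorem PFr_swap {R : Type u} [CommRing R] (r : R) (q : Ideal R) [q.IsPrime] {d : ℕ}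
    (H : PFr (Localization.Away (algebraMap R (Localization.AtPrime q) r)) d) :
    PFr (Localization (Algebra.algebraMapSubmonoid (Localization.Away r) q.primeCompl)) d := by
  let K := Localization.AtPrime q
  let B := Localization.Away r
  let T := Localization.Away (algebraMap R K r)
  have hu : IsUnit ((algebraMap R T) r) := by
    rw [IsScalarTower.algebraMap_apply R K T]
    exact IsLocalization.Away.algebraMap_isUnit (algebraMap R K r)
  let ψ : B →+* T := IsLocalization.Away.lift (S := B) r (g := algebraMap R T) hu
  let : Algebra B T := ψ.toAlgebra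
  have : IsScalarTower R B T := IsScalarTower.of_algebraMap_eq fun x =>
    (IsLocalization.Away.lift_eq (S := B) r (g := algebraMap R T) hu x).symm
  have h1 : IsLocalization (Algebra.algebraMapSubmonoid K (Submonoid.powers r)) T := by
    have h2 : Algebra.algebraMapSubmonoid K (Submonoid.powers r) =
        Submonoid.powers (algebraMap R K r) := by
      rw [Algebra.algebraMapSubmonoid, Submonoid.map_powers]
    rw [h2]
    infer_instance
  have h3 : IsLocalization (Algebra.algebraMapSubmonoid B q.primeCompl) T :=
    IsLocalization.commutes B K T (Submonoid.powers r) q.primeCompl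
  exact PFr_congr (IsLocalization.algEquiv (Algebra.algebraMapSubmonoid B q.primeCompl)
    (Localization (Algebra.algebraMapSubmonoid B q.primeCompl)) T).toRingEquiv H

/-- The reduction theorem, for modules of rank at least `d`. -/
theorem reduction_rank {S : Type u} [CommRing S] [IsDomain S] [IsNoetherianRing S]
    [IsLocalRing S] [IsAdicComplete (maximalIdeal S) S] (r : S) (hr : r ≠ 0) (n : ℕ)
    [hp : ((maximalIdeal S).map (MvPowerSeries.C (σ := Fin n) (R := S))).IsPrime] {d : ℕ}
    (H : PFr (Localization.Away (algebraMap (MvPowerSeries (Fin n) S)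
      (Localization.AtPrime ((maximalIdeal S).map (MvPowerSeries.C (σ := Fin n) (R := S))))
      (MvPowerSeries.C r))) d) :
    PFr (Localization.Away (MvPowerSeries.C r : MvPowerSeries (Fin n) S)) d := by
  classical
  intro P _ _ hfin hproj hd
  let R := MvPowerSeries (Fin n) S
  let q : Ideal R := (maximalIdeal S).map (MvPowerSeries.C (σ := Fin n) (R := S))
  let B := Localization.Away (MvPowerSeries.C r : R)
  have hR : IsDomain R := isDomain_mv S n
  have hrR : (MvPowerSeries.C r : R) ≠ 0 := by
    intro h
    exact hr (MvPowerSeries.C_injective (by rw [h, map_zero]))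
  have hle : Submonoid.powers (MvPowerSeries.C r : R) ≤ nonZeroDivisors R :=
    powers_le_nonZeroDivisors_of_noZeroDivisors hrR
  have hB : IsDomain B := IsLocalization.isDomain_localization hle
  have hinj : Function.Injective (algebraMap R B) := IsLocalization.injective _ hle
  have hM : (0 : B) ∉ Algebra.algebraMapSubmonoid B q.primeCompl := by
    rintro ⟨x, hx, hx0⟩
    have h1 : x = 0 := hinj (by rw [map_zero]; exact hx0)
    exact hx (h1 ▸ q.zero_mem)
  let M := Algebra.algebraMapSubmonoid B q.primeCompl
  have hMle : M ≤ nonZeroDivisors B := fun x hx =>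
    mem_nonZeroDivisors_of_ne_zero fun h => hM (h ▸ hx)
  have hfr : Module.finrank (Localization M) (LocalizedModule M P) = Module.finrank B P := by
    rw [IsLocalization.finrank_eq (R := B) (S := Localization M) M hMle,
      IsLocalizedModule.finrank_eq M (LocalizedModule.mkLinearMap M P) hMle]
  have hfree : Module.Free (Localization M) (LocalizedModule M P) := by
    refine PFr_swap _ _ H _ ?_ ?_ (hfr ▸ hd)
    · exact Module.Finite.of_isLocalizedModule M (Rₚ := Localization M)
        (LocalizedModule.mkLinearMap M P)
    · exact Module.projective_of_isLocalizedModule (Rₛ := Localization M) M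
        (LocalizedModule.mkLinearMap M P)
  obtain ⟨k, _, ⟨f, hf, rfl⟩, hHB⟩ := exists_HB_of_free M hM P hfree
  have hfq : MvPowerSeries.map (residue S) f ≠ 0 := fun h0 => hf ((mem_mapC _ f).2 h0)
  exact free_of_HB_of_MI mi r hr n k f hfq P hHB

end Pool.Agent.QU53
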