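import Pool.Agent.Lib.QU53.HBase

/-!
# A local criterion for projectivity, and linear independence of generators
-/

set_option autoImplicit false

namespace Pool.Agent.QU53

universe u

open Submodule

/-- `k` vectors whose span contains `k` independent vectors are independent. -/
theorem li_of_span {A : Type u} [CommRing A] [IsDomain A] {M : Type u} [AddCommGroup M]
    [Module A M] {k : ℕ} (v w : Fin k → M) (hw : LinearIndependent A w)
    (hs : ∀ i, w i ∈ span A (Set.range v)) : LinearIndependent A v := by
  classical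
  have h1 : ∀ i, ∃ c : Fin k → A, ∑ j, c j • v j = w i := fun i =>
    (Submodule.mem_span_range_iff_exists_fun A).1 (hs i)
  choose W hW using h1
  let W' : Matrix (Fin k) (Fin k) A := Matrix.of W
  rw [Fintype.linearIndependent_iff] at hw ⊢
  have hdet : W'.det ≠ 0 := by
    intro h0
    obtain ⟨c, hc, hcW⟩ := Matrix.exists_vecMul_eq_zero_iff.2 h0
    apply hc
    funext i
    refine hw c ?_ i
    have h2 : ∀ j, ∑ i, c i * W i j = 0 := fun j => congrFun hcW j
    calc ∑ i, c i • w i = ∑ i, ∑ j, (c i * W i j) • v j := by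
          refine Finset.sum_congr rfl fun i _ => ?_
          rw [← hW i, Finset.smul_sum]
          exact Finset.sum_congr rfl fun j _ => (mul_smul _ _ _).symm
      _ = ∑ j, (∑ i, c i * W i j) • v j := by
          rw [Finset.sum_comm]
          exact Finset.sum_congr rfl fun j _ => (Finset.sum_smul).symm
      _ = 0 := by simp [h2]
  intro g hg i
  -- the coefficients `g ᵥ* adjugate`
  let c : Fin k → A := Matrix.vecMul g W'.adjugate
  have h3 : ∑ i, c i • w i = 0 := by
    have h4 : Matrix.vecMul c W' = W'.det • g := by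
      show Matrix.vecMul (Matrix.vecMul g W'.adjugate) W' = _
      rw [Matrix.vecMul_vecMul, Matrix.adjugate_mul, Matrix.vecMul_smul, Matrix.vecMul_one]
    have h5 : ∀ j, ∑ i, c i * W i j = W'.det * g j := fun j => congrFun h4 j
    calc ∑ i, c i • w i = ∑ i, ∑ j, (c i * W i j) • v j := by
          refine Finset.sum_congr rfl fun i _ => ?_
          rw [← hW i, Finset.smul_sum]
          exact Finset.sum_congr rfl fun j _ => (mul_smul _ _ _).symm
      _ = ∑ j, (∑ i, c i * W i j) • v j := by
          rw [Finset.sum_comm]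
          exact Finset.sum_congr rfl fun j _ => (Finset.sum_smul).symm
      _ = W'.det • ∑ j, g j • v j := by
          rw [Finset.smul_sum]
          exact Finset.sum_congr rfl fun j _ => by rw [h5, mul_smul]
      _ = 0 := by rw [hg, smul_zero]
  have h6 : c = 0 := funext fun i => hw c h3 i
  have h7 : W'.det • g = 0 := by
    have h4 : Matrix.vecMul c W' = W'.det • g := by
      show Matrix.vecMul (Matrix.vecMul g W'.adjugate) W' = _
      rw [Matrix.vecMul_vecMul, Matrix.adjugate_mul, Matrix.vecMul_smul, Matrix.vecMul_one]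
    rw [← h4, h6, Matrix.zero_vecMul]
  have h8 := congrFun h7 i
  exact (mul_eq_zero.1 h8).resolve_left hdet

theorem li_smul {A : Type u} [CommRing A] [IsDomain A] {M : Type u} [AddCommGroup M]
    [Module A M] {k : ℕ} {w : Fin k → M} (hw : LinearIndependent A w) {c : A} (hc : c ≠ 0) :
    LinearIndependent A (fun i => c • w i) := by
  rw [Fintype.linearIndependent_iff] at hw ⊢
  intro g hg i
  have h1 : ∑ i, (g i * c) • w i = 0 := by
    rw [← hg]
    exact Finset.sum_congr rfl fun i _ => mul_smul _ _ _
  exact (mul_eq_zero.1 (hw _ h1 i)).resolve_right hc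

/-- If a multiple of `M` lies in the span of `k` vectors, where `k` is the rank, they are
independent. -/
theorem li_of_HB {A : Type u} [CommRing A] [IsDomain A] {M : Type u} [AddCommGroup M]
    [Module A M] {k : ℕ} {h : A} (H : HB A M k h) {s : A} (hs : s ≠ 0) (v : Fin k → M)
    (hv : ∀ x, s • x ∈ span A (Set.range v)) : LinearIndependent A v := by
  obtain ⟨b, hb, -⟩ := H
  exact li_of_span v _ (li_smul hb hs) fun i => hv _

/-- The endomorphisms which factor through finitely generated free modules. -/
def factors (A : Type u) [CommRing A] (M : Type u) [AddCommGroup M] [Module A M] :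
    Submodule A (M →ₗ[A] M) :=
  span A {f | ∃ (φ : M →ₗ[A] A) (m : M), f = φ.smulRight m}

theorem factors_of_HB {A : Type u} [CommRing A] {M : Type u} [AddCommGroup M] [Module A M]
    {k : ℕ} {s : A} (h : HB A M k s) : s • (LinearMap.id : M →ₗ[A] M) ∈ factors A M := by
  classical
  obtain ⟨b, hb, hs⟩ := h
  let bs := Module.Basis.span hb
  let g : M →ₗ[A] span A (Set.range b) := LinearMap.codRestrict _ (LinearMap.lsmul A M s) hs
  have h1 : s • (LinearMap.id : M →ₗ[A] M) = ∑ i, ((bs.coord i).comp g).smulRight (b i) := by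
    ext q
    rw [LinearMap.smul_apply, LinearMap.id_apply, LinearMap.sum_apply]
    have h2 := bs.sum_repr (g q)
    have h3 : ((∑ i, bs.repr (g q) i • bs i : span A (Set.range b)) : M) = (g q : M) :=
      congrArg (fun x : span A (Set.range b) => (x : M)) h2
    rw [Submodule.coe_sum] at h3
    have h4 : ((g q : span A (Set.range b)) : M) = s • q := rfl
    rw [← h4, ← h3]
    refine Finset.sum_congr rfl fun i _ => ?_
    rw [LinearMap.smulRight_apply, LinearMap.comp_apply, Module.Basis.coord_apply,
      Submodule.coe_smul, Module.Basis.span_apply]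
  rw [h1]
  exact Submodule.sum_mem _ fun i _ => subset_span ⟨_, _, rfl⟩

/-- Local criterion. -/
theorem projective_of_HB {A : Type u} [CommRing A] {M : Type u} [AddCommGroup M] [Module A M]
    (h : ∀ q : Ideal A, q.IsMaximal → ∃ s, s ∉ q ∧ ∃ k, HB A M k s) : Module.Projective A M := by
  classical
  let J : Ideal A := (factors A M).comap (LinearMap.toSpanSingleton A (M →ₗ[A] M) LinearMap.id)
  have hJ : J = ⊤ := by
    by_contra hne
    obtain ⟨q, hq, hle⟩ := Ideal.exists_le_maximal J hne
    obtain ⟨s, hs, k, hk⟩ := h q hq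
    exact hs (hle (show s ∈ J from factors_of_HB hk))
  have h1 : (LinearMap.id : M →ₗ[A] M) ∈ factors A M := by
    have h2 : (1 : A) ∈ J := by rw [hJ]; trivial
    have h3 : LinearMap.toSpanSingleton A (M →ₗ[A] M) LinearMap.id 1 ∈ factors A M := h2
    simpa using h3
  obtain ⟨n, c, g, hg⟩ := (Submodule.mem_span_set' ).1 h1
  have h4 : ∀ i, ∃ (φ : M →ₗ[A] A) (m : M), ((g i : M →ₗ[A] M)) = φ.smulRight m := fun i =>
    (g i).2
  choose φ m hφ using h4
  let α : M →ₗ[A] (Fin n → A) := LinearMap.pi fun i => c i • φ i
  let β : (Fin n → A) →ₗ[A] M := Fintype.linearCombination A m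
  refine Module.Projective.of_split α β ?_
  ext q
  have h5 : (∑ i, c i • ((g i : M →ₗ[A] M))) q = q := by rw [hg]; rfl
  rw [LinearMap.comp_apply, LinearMap.id_apply]
  conv_rhs => rw [← h5]
  rw [LinearMap.sum_apply, Fintype.linearCombination_apply]
  refine Finset.sum_congr rfl fun i _ => ?_
  rw [LinearMap.smul_apply, hφ, LinearMap.smulRight_apply, smul_smul]
  rfl

end Pool.Agent.QU53
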