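import Pool.Agent.Lib.QU53.Patch

/-!
# R6: one step (Weierstrass preparation, patching, monic inversion)
-/

set_option autoImplicit false

namespace Pool.Agent.QU53

universe u

open IsLocalRing Polynomial

/-- A polynomial divisible by a distinguished polynomial in the power series ring is divisible. -/
theorem dvd_of_dvd_coe {R : Type u} [CommRing R] [IsLocalRing R] [IsHausdorff (maximalIdeal R) R]
    {g : PowerSeries R} {a : Polynomial R} {u : PowerSeries R}
    (H : g.IsWeierstrassFactorization a u) (hg : PowerSeries.map (residue R) g ≠ 0)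
    (p : Polynomial R) (s : PowerSeries R) (hp : (p : PowerSeries R) = (a : PowerSeries R) * s) :
    ∃ b : Polynomial R, p = a * b := by
  have ha : a.Monic := H.isDistinguishedAt.monic
  obtain ⟨w, hw⟩ := H.isUnit.exists_right_inv
  have hdiv := Polynomial.modByMonic_add_div p a
  have h1 : ((p %ₘ a : Polynomial R) : PowerSeries R) =
      (a : PowerSeries R) * (s - ((p /ₘ a : Polynomial R) : PowerSeries R)) := by
    rw [mul_sub, ← hp, ← Polynomial.coe_mul, ← Polynomial.coe_sub]
    congr 1
    rw [eq_sub_iff_add_eq]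
    exact hdiv
  have h2 : g * (w * (s - ((p /ₘ a : Polynomial R) : PowerSeries R))) =
      ((p %ₘ a : Polynomial R) : PowerSeries R) := by
    rw [h1, H.eq_mul]
    linear_combination ((a : PowerSeries R) * (s - ((p /ₘ a : Polynomial R) : PowerSeries R))) * hw
  have hdeg : (p %ₘ a).degree < (PowerSeries.map
      (Ideal.Quotient.mk (maximalIdeal R)) g).order.toNat := by
    have h3 : a.natDegree = (PowerSeries.map
      (Ideal.Quotient.mk (maximalIdeal R)) g).order.toNat := H.natDegree_eq_toNat_order_map
    rw [← h3, ← Polynomial.degree_eq_natDegree ha.ne_zero]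
    exact Polynomial.degree_modByMonic_lt p ha
  obtain ⟨h3, h4⟩ := (PowerSeries.IsWeierstrassDivisor.of_map_ne_zero hg).eq_zero_of_mul_eq hdeg h2
  refine ⟨p /ₘ a, ?_⟩
  rw [h4, zero_add] at hdiv
  exact hdiv.symm

/-- The statement of monic inversion over a domain. -/
def MI : Prop :=
  ∀ (C : Type u) [CommRing C] [IsDomain C] (k : ℕ) (P : Type u)
    [AddCommGroup P] [Module C[X] P] [Module.Finite C[X] P] [Module.Projective C[X] P]
    (H : C[X]) (_ : H.Monic) (_ : HB C[X] P k H) (c : C) (_ : IsUnit (H.eval c)),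
    Module.Free C[X] P

/-- R6, one step: Weierstrass, patching and monic inversion. -/
theorem one_step_of_MI (hMI : MI.{u}) {C : Type u} [CommRing C] [IsDomain C] [IsNoetherianRing C]
    [IsLocalRing C]
    [IsAdicComplete (maximalIdeal C) C] (r : C) (hr : r ≠ 0) (k : ℕ) (P : Type u)
    [AddCommGroup P] [Module (Localization.Away (PowerSeries.C r : PowerSeries C)) P]
    [Module.Finite (Localization.Away (PowerSeries.C r : PowerSeries C)) P]
    [Module.Projective (Localization.Away (PowerSeries.C r : PowerSeries C)) P]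
    (f : PowerSeries C) (hf : PowerSeries.map (residue C) f ≠ 0)
    (hb : HB (Localization.Away (PowerSeries.C r : PowerSeries C)) P k (algebraMap _ _ f)) :
    Module.Free (Localization.Away (PowerSeries.C r : PowerSeries C)) P := by
  classical
  obtain ⟨F₀, u, HF⟩ := PowerSeries.exists_isWeierstrassFactorization hf
  let R := PowerSeries C
  let Cr := Localization.Away r
  let B := Localization.Away (PowerSeries.C r : PowerSeries C)
  have hrR : (PowerSeries.C r : PowerSeries C) ≠ 0 := by
    intro h
    exact hr (PowerSeries.C_injective (by rw [h, map_zero]))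
  have hCr : IsDomain Cr := IsLocalization.isDomain_localization
    (powers_le_nonZeroDivisors_of_noZeroDivisors hr)
  have hB : IsDomain B := IsLocalization.isDomain_localization
    (powers_le_nonZeroDivisors_of_noZeroDivisors hrR)
  have hinjR : Function.Injective (algebraMap R B) := IsLocalization.injective _
    (powers_le_nonZeroDivisors_of_noZeroDivisors hrR)
  have hinjC : Function.Injective (algebraMap C Cr) := IsLocalization.injective _
    (powers_le_nonZeroDivisors_of_noZeroDivisors hr)
  have hunit : IsUnit (algebraMap R B (PowerSeries.C r)) :=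
    IsLocalization.Away.algebraMap_isUnit (PowerSeries.C r : PowerSeries C)
  let φ₀ : Cr →+* B := IsLocalization.Away.lift (S := Cr) r
    (g := (algebraMap R B).comp (PowerSeries.C (R := C))) (by exact hunit)
  have hφ₀ : ∀ c : C, φ₀ (algebraMap C Cr c) = algebraMap R B (PowerSeries.C c) := fun c =>
    IsLocalization.Away.lift_eq (S := Cr) r (g := (algebraMap R B).comp (PowerSeries.C (R := C)))
      (by exact hunit) c
  let φ : Cr[X] →+* B := Polynomial.eval₂RingHom φ₀ (algebraMap R B PowerSeries.X)
  have hφ : ∀ p : C[X], φ (p.map (algebraMap C Cr)) = algebraMap R B (p : PowerSeries C) := by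
    intro p
    have h1 : φ.comp (Polynomial.mapRingHom (algebraMap C Cr)) =
        (algebraMap R B).comp Polynomial.coeToPowerSeries.ringHom := by
      refine Polynomial.ringHom_ext (fun c => ?_) ?_
      · show Polynomial.eval₂ φ₀ _ ((Polynomial.C c).map _) = algebraMap R B
          ((Polynomial.C c : C[X]) : PowerSeries C)
        rw [Polynomial.map_C, Polynomial.eval₂_C, hφ₀, Polynomial.coe_C]
      · show Polynomial.eval₂ φ₀ _ ((Polynomial.X : C[X]).map _) = algebraMap R B
          ((Polynomial.X : C[X]) : PowerSeries C)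
        rw [Polynomial.map_X, Polynomial.eval₂_X, Polynomial.coe_X]
    exact congrArg (fun ψ : C[X] →+* B => ψ p) h1
  -- denominators
  have hdenA : ∀ a : Cr[X], ∃ (n : ℕ) (p : C[X]),
      Polynomial.C (algebraMap C Cr (r ^ n)) * a = p.map (algebraMap C Cr) := by
    intro a
    obtain ⟨_, ⟨n, rfl⟩, hb⟩ := IsLocalization.integerNormalization_spec
      (Submonoid.powers r) a
    refine ⟨n, IsLocalization.integerNormalization (Submonoid.powers r) a, ?_⟩
    rw [hb]
    show _ = (r ^ n) • a
    rw [Algebra.smul_def]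
    rfl
  have hdenB : ∀ β : B, ∃ (n : ℕ) (g : R),
      algebraMap R B (PowerSeries.C (r ^ n)) * β = algebraMap R B g := by
    intro β
    obtain ⟨n, g, hg⟩ := IsLocalization.Away.surj (PowerSeries.C r : PowerSeries C) β
    refine ⟨n, g, ?_⟩
    rw [← hg, map_pow, map_pow, mul_comm]
  have hφC : ∀ n : ℕ, φ (Polynomial.C (algebraMap C Cr (r ^ n))) =
      algebraMap R B (PowerSeries.C (r ^ n)) := by
    intro n
    show Polynomial.eval₂ φ₀ _ (Polynomial.C _) = _
    rw [Polynomial.eval₂_C, hφ₀]
  have hCunit : ∀ n : ℕ, IsUnit (Polynomial.C (algebraMap C Cr (r ^ n)) : Cr[X]) := by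
    intro n
    rw [map_pow, map_pow]
    exact ((IsLocalization.Away.algebraMap_isUnit r).map Polynomial.C).pow n
  let : Algebra Cr[X] B := φ.toAlgebra
  have hal : ∀ a, algebraMap Cr[X] B a = φ a := fun _ => rfl
  let F : Cr[X] := F₀.map (algebraMap C Cr)
  have hF₀ : F₀.Monic := HF.isDistinguishedAt.monic
  have hF : F.Monic := hF₀.map _
  have hinj : Function.Injective (algebraMap Cr[X] B) := by
    rw [injective_iff_map_eq_zero]
    intro a ha
    obtain ⟨n, p, hp⟩ := hdenA a
    have h1 : φ (p.map (algebraMap C Cr)) = 0 := by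
      rw [← hp, map_mul, ← hal a, ha, mul_zero]
    rw [hφ] at h1
    have h2 : (p : PowerSeries C) = 0 := hinjR (by rw [h1, map_zero])
    have h3 : p = 0 := Polynomial.coe_injective C (by rw [h2, Polynomial.coe_zero])
    rw [h3, Polynomial.map_zero] at hp
    exact ((hCunit n).mul_right_eq_zero).1 hp
  have h1 : ∀ β : B, ∃ (a : Cr[X]) (c : B),
      β = algebraMap Cr[X] B a + algebraMap Cr[X] B F * c := by
    intro β
    obtain ⟨n, g, hg⟩ := hdenB β
    obtain ⟨q, t, hqt⟩ := PowerSeries.exists_isWeierstrassDivision (f := g) hf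
    obtain ⟨v, hv⟩ := hCunit n
    obtain ⟨v', hv'⟩ : ∃ v' : Cr[X], v' * Polynomial.C (algebraMap C Cr (r ^ n)) = 1 :=
      ⟨(↑v⁻¹ : Cr[X]), by rw [← hv, Units.inv_mul]⟩
    refine ⟨v' * t.map (algebraMap C Cr), φ v' * algebraMap R B (u * q), ?_⟩
    have h2 : β = φ v' * (algebraMap R B (PowerSeries.C (r ^ n)) * β) := by
      rw [← hφC n, ← mul_assoc, ← map_mul, hv', map_one, one_mul]
    rw [h2, hg, hqt.eq_mul_add, HF.eq_mul, hal, hal, map_mul, hφ, hφ, map_add, map_mul, map_mul,
      map_mul]
    ring
  have h2 : ∀ (a : Cr[X]) (c : B), algebraMap Cr[X] B a = algebraMap Cr[X] B F * c →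
      ∃ a', a = F * a' := by
    intro a c hac
    obtain ⟨n, p, hp⟩ := hdenA a
    obtain ⟨m, g, hg⟩ := hdenB c
    have h3 : algebraMap R B ((Polynomial.C (r ^ m) * p : C[X]) : PowerSeries C) =
        algebraMap R B ((F₀ : PowerSeries C) * (PowerSeries.C (r ^ n) * g)) := by
      rw [Polynomial.coe_mul, Polynomial.coe_C, map_mul, ← hφ p, ← hp, map_mul φ, hφC, ← hal a,
        hac, map_mul, map_mul, ← hg, hal, hφ]
      ring
    obtain ⟨b', hb'⟩ := dvd_of_dvd_coe HF hf _ _ (hinjR h3)
    have h4 := congrArg (Polynomial.map (algebraMap C Cr)) hb'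
    rw [Polynomial.map_mul, Polynomial.map_mul, Polynomial.map_C, ← hp] at h4
    obtain ⟨v, hv⟩ := (hCunit m).mul (hCunit n)
    refine ⟨(↑v⁻¹ : Cr[X]) * b'.map (algebraMap C Cr), ?_⟩
    have h5 : (v : Cr[X]) * a = F * b'.map (algebraMap C Cr) := by
      rw [hv, mul_assoc]; exact h4
    calc a = (↑v⁻¹ : Cr[X]) * (v * a) := by rw [Units.inv_mul_cancel_left]
      _ = _ := by rw [h5]; ring
  -- `HB` with respect to `F`
  have hbF : HB B P k (algebraMap Cr[X] B F) := by
    obtain ⟨b, hli, hs⟩ := hb
    refine ⟨b, hli, fun q => ?_⟩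
    obtain ⟨w, hw⟩ := HF.isUnit.exists_right_inv
    have h3 : algebraMap Cr[X] B F = algebraMap R B w * algebraMap R B f := by
      rw [hal, hφ, ← map_mul]
      congr 1
      rw [HF.eq_mul]
      linear_combination (-(F₀ : PowerSeries C)) * hw
    rw [h3, mul_smul]
    exact Submodule.smul_mem _ _ (hs q)
  have hNoeth : IsNoetherianRing Cr := IsLocalization.isNoetherianRing (Submonoid.powers r) Cr
    inferInstance
  obtain ⟨P', i1, i2, hfin, hproj, hHB, hfree⟩ := patch F hF.ne_zero hinj h1 h2 k P hbF
  apply hfree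
  refine hMI Cr k P' F hF hHB 1 ?_
  -- `F₀ (1)` is a unit
  have h3 : IsUnit (F₀.eval 1) := by
    by_contra hne
    have h4 : residue C (F₀.eval 1) = 0 := by
      rw [residue_eq_zero_iff]; exact hne
    have h5 : (F₀.map (residue C)).eval 1 = 0 := by
      rw [← map_one (residue C), Polynomial.eval_map_apply] 
      exact h4
    have h6 : F₀.map (residue C) = Polynomial.X ^ F₀.natDegree := HF.isDistinguishedAt.map_eq_X_pow
    rw [h6, Polynomial.eval_pow, Polynomial.eval_X, one_pow] at h5
    exact one_ne_zero h5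
  have h4 : F.eval 1 = algebraMap C Cr (F₀.eval 1) := by
    show (F₀.map (algebraMap C Cr)).eval 1 = _
    rw [← map_one (algebraMap C Cr), Polynomial.eval_map_apply]
  rw [h4]
  exact h3.map _

end Pool.Agent.QU53
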